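import Mathlib

/-! Counting solutions of power sum systems by integrals over the torus; Linnik's lemma. -/

namespace Pool.Agent.Lib.VK

open Finset MeasureTheory UnitAddTorus
open Fintype (piFinset mem_piFinset)
open scoped ComplexConjugate

variable {k : ℕ} {ι κ : Type}

abbrev Tor (k : ℕ) := Fin k → AddCircle (1 : ℝ)

noncomputable def mu (k : ℕ) : Measure (Tor k) := Measure.pi fun _ => AddCircle.haarAddCircle

instance : IsProbabilityMeasure (mu k) := by unfold mu; infer_instance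

lemma itg {E : Type} [NormedAddCommGroup E] {F : Tor k → E} (h : Continuous F) :
    Integrable F (mu k) := h.integrable_of_hasCompactSupport (HasCompactSupport.of_compactSpace _)

lemma int_mF (d : Fin k → ℤ) : ∫ ω, mFourier d ω ∂mu k = if d = 0 then 1 else 0 := by
  split_ifs with h
  · simp [h, mFourier_zero]
  rw [mFourier, ContinuousMap.coe_mk, mu, integral_fintype_prod_eq_prod]
  obtain ⟨i, hi⟩ := Function.ne_iff.mp h
  refine prod_eq_zero (mem_univ i) ?_
  have := (orthonormal_iff_ite.mp <| orthonormal_fourier (T := 1)) 0 (d i)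
  rw [if_neg (show ¬ 0 = d i from Ne.symm hi), ContinuousMap.inner_toLp] at this
  simpa using this

lemma norm_mF (d : Fin k → ℤ) (ω : Tor k) : ‖mFourier d ω‖ = 1 := by
  simp only [mFourier, fourier_apply, ContinuousMap.coe_mk, norm_prod, Circle.norm_coe,
    prod_const_one]

/-- exponential sum -/
noncomputable def SS (X : Finset ι) (φ : ι → Fin k → ℤ) (ω : Tor k) : ℂ := ∑ i ∈ X, mFourier (φ i) ω

@[fun_prop] lemma cont_SS (X : Finset ι) (φ : ι → Fin k → ℤ) : Continuous (SS X φ) := by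
  unfold SS; fun_prop

/-- number of coincidences -/
def cnt (X : Finset ι) (φ : ι → Fin k → ℤ) (Y : Finset κ) (ψ : κ → Fin k → ℤ) : ℕ :=
  ((X ×ˢ Y).filter fun z => φ z.1 = ψ z.2).card

lemma cnt_eq (X : Finset ι) (φ : ι → Fin k → ℤ) (Y : Finset κ) (ψ : κ → Fin k → ℤ) :
    (cnt X φ Y ψ : ℂ) = ∫ ω, SS X φ ω * conj (SS Y ψ ω) ∂mu k := by
  simp only [SS, map_sum, sum_mul_sum, ← mFourier_neg, ← mFourier_add, ← sum_product']
  rw [integral_finsetSum _ fun z _ => itg (ContinuousMap.continuous _), cnt, card_filter]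
  push_cast
  exact sum_congr rfl fun z _ => by simp only [int_mF, add_neg_eq_zero]

lemma cnt_le (X : Finset ι) (φ : ι → Fin k → ℤ) (Y : Finset κ) (ψ : κ → Fin k → ℤ) :
    (cnt X φ Y ψ : ℝ) ≤ ∫ ω, ‖SS X φ ω‖ * ‖SS Y ψ ω‖ ∂mu k := by
  have := norm_integral_le_integral_norm (μ := mu k) fun ω => SS X φ ω * conj (SS Y ψ ω)
  rw [← cnt_eq] at this
  simpa using this

lemma cnt_self (X : Finset ι) (φ : ι → Fin k → ℤ) :
    (cnt X φ X φ : ℝ) = ∫ ω, ‖SS X φ ω‖ ^ 2 ∂mu k := by
  have := cnt_eq X φ X φ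
  simp only [Complex.mul_conj, Complex.normSq_eq_norm_sq] at this
  rw [integral_complex_ofReal] at this
  exact_mod_cast this

lemma cnt_shift (X : Finset ι) (φ : ι → Fin k → ℤ) (d : Fin k → ℤ) :
    cnt X (fun i => φ i + d) X φ ≤ cnt X φ X φ := by
  have := cnt_le X (fun i => φ i + d) X φ
  simp only [SS, mFourier_add, ← sum_mul, norm_mul, norm_mF, mul_one, ← sq] at this
  exact_mod_cast this.trans_eq (cnt_self X φ).symm

lemma SS_prod (X : Finset ι) (φ : ι → Fin k → ℤ) (Y : Finset κ) (ψ : κ → Fin k → ℤ) (ω : Tor k) :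
    SS (X ×ˢ Y) (fun z => φ z.1 + ψ z.2) ω = SS X φ ω * SS Y ψ ω := by
  simp only [SS, mFourier_add, sum_mul_sum, sum_product]

/-- power sums -/
def Pw {s : ℕ} (x : Fin s → ℤ) (n : ℕ) : ℤ := ∑ i, x i ^ n

def ps (k : ℕ) {s : ℕ} (x : Fin s → ℤ) : Fin k → ℤ := fun j => Pw x (j + 1)

def tup (s : ℕ) (A : Finset ℤ) : Finset (Fin s → ℤ) := piFinset fun _ => A

/-- Vinogradov's mean value -/
def JV (k s : ℕ) (A : Finset ℤ) : ℕ := cnt (tup s A) (ps k) (tup s A) (ps k)

noncomputable def ff (k : ℕ) (A : Finset ℤ) : Tor k → ℂ := SS A fun a j => a ^ (j.1 + 1)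

@[fun_prop] lemma cont_ff (A : Finset ℤ) : Continuous (ff k A) := cont_SS _ _

lemma SS_pi {s : ℕ} (A : Fin s → Finset ℤ) (ω : Tor k) :
    SS (piFinset A) (ps k) ω = ∏ i, ff k (A i) ω := by
  simp only [ff, SS, prod_univ_sum]
  refine sum_congr rfl fun x _ => ?_
  have : ∀ t : Finset (Fin s), mFourier (fun j : Fin k => ∑ i ∈ t, x i ^ (j.1 + 1)) ω =
      ∏ i ∈ t, mFourier (fun j : Fin k => x i ^ (j.1 + 1)) ω := fun t => by
    induction t using Finset.induction_on with
    | empty => exact congrFun (congrArg _ mFourier_zero) ω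
    | insert a t ha ih =>
      simp only [sum_insert ha, prod_insert ha, ← ih]
      exact mFourier_add
  exact this univ

lemma SS_tup (s : ℕ) (A : Finset ℤ) (ω : Tor k) : SS (tup s A) (ps k) ω = ff k A ω ^ s := by
  rw [tup, SS_pi, Fin.prod_const]

lemma JV_eq (s : ℕ) (A : Finset ℤ) : (JV k s A : ℝ) = ∫ ω, (‖ff k A ω‖ ^ 2) ^ s ∂mu k := by
  simp only [JV, cnt_self, SS_tup, norm_pow, ← pow_mul, mul_comm]

lemma norm_ff (A : Finset ℤ) (ω : Tor k) : ‖ff k A ω‖ ≤ A.card :=
  (norm_sum_le _ _).trans_eq (by simp [norm_mF])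

lemma Pw_add {s : ℕ} (x : Fin s → ℤ) (c : ℤ) (n : ℕ) :
    Pw (fun i => x i + c) n = ∑ m ∈ range (n + 1), Pw x m * (c ^ (n - m) * n.choose m) := by
  simp only [Pw, add_pow, sum_mul, mul_assoc]
  exact sum_comm

lemma Pw_shift {s t : ℕ} {x y : Fin s → ℤ} {u v : Fin t → ℤ}
    (h : ps k x + ps k u = ps k y + ps k v) (c : ℤ) (j : Fin k) :
    Pw (fun i => x i + c) (j + 1) + Pw (fun i => u i + c) (j + 1) =
      Pw (fun i => y i + c) (j + 1) + Pw (fun i => v i + c) (j + 1) := by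
  simp only [Pw_add, ← sum_add_distrib, ← add_mul]
  refine sum_congr rfl fun m hm => ?_
  congr 1
  rcases m with _ | m
  · simp [Pw]
  · exact congrFun h ⟨m, by have := mem_range.1 hm; omega⟩

/-- the class of `r` modulo `p` -/
def cls (p r : ℤ) (A : Finset ℤ) : Finset ℤ := A.filter fun a => a % p = r

lemma JV_cls (s : ℕ) {p N L : ℤ} (hp : 0 < p) (h : N ≤ p * L) (r : ℤ) :
    JV k s (cls p r (Ico 0 N)) ≤ JV k s (Ico 0 L) := by
  have e : ∀ u ∈ tup s (cls p r (Ico 0 N)), ∀ i, u i + -r = p * (u i / p) ∧ u i / p ∈ Ico 0 L :=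
    fun u hu i => by
      obtain ⟨h1, h2⟩ := mem_filter.1 (mem_piFinset.1 hu i)
      have := Int.mul_ediv_add_emod (u i) p
      rw [mem_Ico] at h1 ⊢
      exact ⟨by omega, Int.ediv_nonneg h1.1 hp.le, Int.ediv_lt_of_lt_mul hp (by linarith)⟩
  refine card_le_card_of_injOn (fun z => (fun i => z.1 i / p, fun i => z.2 i / p)) (fun z hz => ?_)
    fun z hz w hw h => ?_
  · obtain ⟨h1, h2⟩ := mem_filter.1 hz
    obtain ⟨h3, h4⟩ := mem_product.1 h1
    refine mem_filter.2 ⟨mem_product.2 ⟨mem_piFinset.2 fun i => (e _ h3 i).2,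
      mem_piFinset.2 fun i => (e _ h4 i).2⟩, funext fun j => ?_⟩
    have := add_right_cancel (Pw_shift (u := z.1) (v := z.1) (congrArg (· + ps k z.1) h2) (-r) j)
    simp only [Pw, (e _ h3 _).1, (e _ h4 _).1, mul_pow, ← mul_sum] at this
    exact mul_left_cancel₀ (pow_ne_zero _ hp.ne') this
  · obtain ⟨h3, h4⟩ := mem_product.1 (mem_filter.1 hz).1
    obtain ⟨h5, h6⟩ := mem_product.1 (mem_filter.1 hw).1
    obtain ⟨h7, h8⟩ := Prod.mk.inj h
    refine Prod.ext (funext fun i => ?_) (funext fun i => ?_)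
    · have := (e _ h3 i).1
      rw [congrFun h7 i, ← (e _ h5 i).1] at this
      exact add_right_cancel this
    · have := (e _ h4 i).1
      rw [congrFun h8 i, ← (e _ h6 i).1] at this
      exact add_right_cancel this

lemma linnik {p : ℕ} (hp : p.Prime) (hk : k < p) {x y : Fin k → ℤ}
    (hx : ∀ a b, (p : ℤ) ∣ x a - x b → a = b)
    (h : ∀ j : Fin k, (p : ℤ) ^ k ∣ Pw x (j + 1) - Pw y (j + 1)) (i : Fin k) :
    ∃ l, (p : ℤ) ^ k ∣ y i - x l := by
  have e : ∀ n ≤ k, MvPolynomial.aeval (fun i => (x i : ZMod (p ^ k))) (MvPolynomial.esymm (Fin k) ℤ n)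
      = MvPolynomial.aeval (fun i => (y i : ZMod (p ^ k))) (MvPolynomial.esymm (Fin k) ℤ n) := by
    intro n
    induction n using Nat.strong_induction_on with
    | _ n ih =>
      intro hn
      rcases n.eq_zero_or_pos with rfl | h0
      · simp
      have u : IsUnit (n : ZMod (p ^ k)) := (ZMod.isUnit_iff_coprime _ _).2
        (Nat.Coprime.pow_right _ (Nat.coprime_of_lt_prime h0.ne' (by omega) hp).symm)
      refine u.mul_left_cancel ?_
      have := MvPolynomial.mul_esymm_eq_sum (Fin k) ℤ n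
      have h1 := congrArg (MvPolynomial.aeval fun i => (x i : ZMod (p ^ k))) this
      have h2 := congrArg (MvPolynomial.aeval fun i => (y i : ZMod (p ^ k))) this
      simp only [map_mul, map_natCast, map_sum, map_pow, map_neg, map_one] at h1 h2
      rw [h1, h2]
      congr 1
      refine sum_congr rfl fun a ha => ?_
      obtain ⟨h3, h4⟩ := mem_filter.1 ha
      have h5 := mem_antidiagonal.1 h3
      rw [ih _ h4 (by omega)]
      congr 1
      have h6 := h ⟨a.2 - 1, by omega⟩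
      rw [show a.2 - 1 + 1 = a.2 by omega, ← Nat.cast_pow, ← ZMod.intCast_eq_intCast_iff_dvd_sub] at h6
      simpa [MvPolynomial.psum, Pw] using h6.symm
  have e2 : ∀ z : Fin k → ℤ, ((∏ l, (y i - z l) : ℤ) : ZMod (p ^ k)) = Polynomial.eval
      (y i : ZMod (p ^ k)) (∑ j ∈ range (k + 1), (-1) ^ j * (Polynomial.C (MvPolynomial.aeval
        (fun i => (z i : ZMod (p ^ k))) (MvPolynomial.esymm (Fin k) ℤ j)) * Polynomial.X ^ (k - j))) :=
    fun z => by
      have := Multiset.prod_X_sub_X_eq_sum_esymm (univ.val.map fun i => (z i : ZMod (p ^ k)))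
      simp only [Multiset.card_map, card_val, card_univ, Fintype.card_fin, Multiset.map_map] at this
      simp only [MvPolynomial.aeval_esymm_eq_multiset_esymm]
      rw [← this, ← Finset.prod_eq_multiset_prod]
      simp [Polynomial.eval_prod]
  have e3 : (p : ℤ) ^ k ∣ ∏ l, (y i - x l) := by
    rw [← Nat.cast_pow, ← ZMod.intCast_zmod_eq_zero_iff_dvd, e2,
      sum_congr rfl fun j hj => by rw [e j (Nat.lt_succ_iff.1 (mem_range.1 hj))], ← e2,
      prod_eq_zero (mem_univ i) (sub_self _), Int.cast_zero]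
  have pp := Nat.prime_iff_prime_int.1 hp
  obtain ⟨l, -, hl⟩ := (Prime.dvd_finsetProd_iff pp _).1 ((dvd_pow_self _ i.pos.ne').trans e3)
  rw [← mul_prod_erase _ _ (mem_univ l)] at e3
  refine ⟨l, IsCoprime.dvd_of_dvd_mul_right (IsCoprime.pow_left (IsCoprime.prod_right fun m hm =>
    (Irreducible.coprime_iff_not_dvd pp.irreducible).2 fun hd => ?_)) e3⟩
  exact (mem_erase.1 hm).1 (hx _ _ (by simpa using dvd_sub hl hd))

end Pool.Agent.Lib.VK
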