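import Pool.Agent.Lib.VK.V1

/-! The `p`-adic recursion for Vinogradov's mean value. -/

namespace Pool.Agent.Lib.VK

open Finset MeasureTheory UnitAddTorus
open Fintype (piFinset mem_piFinset)

variable {k : ℕ}

/-- tuples which are distinct modulo `p` -/
def good (k : ℕ) (p : ℤ) (A : Finset ℤ) : Finset (Fin k → ℤ) :=
  (tup k A).filter fun x => ∀ a b, p ∣ x a - x b → a = b

lemma card_tup (s : ℕ) (A : Finset ℤ) : (tup s A).card = A.card ^ s := by simp [tup]

lemma card_cong {p : ℕ} (hp : p.Prime) (hk : k < p) {N : ℤ} (hN : N ≤ (p : ℤ) ^ k) (r : ℤ)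
    (c : Fin k → ℤ) : ((good k p (Ico 0 N)).filter fun x => ∀ j : Fin k,
      (p : ℤ) ^ (j.1 + 1) ∣ Pw (fun i => x i + r) (j + 1) - c j).card ≤
      k ^ k * p ^ ∑ j ∈ range k, j := by
  have p0 : (0 : ℤ) < p := by exact_mod_cast hp.pos
  have := card_le_mul_card_image_of_maps_to (s := (good k p (Ico 0 N)).filter fun x => ∀ j : Fin k,
      (p : ℤ) ^ (j.1 + 1) ∣ Pw (fun i => x i + r) (j + 1) - c j)
    (t := piFinset fun j : Fin k => Ico (0 : ℤ) (p ^ (k - 1 - j.1)))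
    (f := fun x (j : Fin k) => (Pw (fun i => x i + r) (j + 1) - c j) / p ^ (j.1 + 1) % p ^ (k - 1 - j.1))
    (fun x _ => mem_piFinset.2 fun j => mem_Ico.2 ⟨Int.emod_nonneg _ (pow_pos p0 _).ne',
      Int.emod_lt_of_pos _ (pow_pos p0 _)⟩) (k ^ k) fun b _ => ?_
  · refine this.trans_eq ?_
    rw [Fintype.card_piFinset, ← sum_range_reflect, ← prod_pow_eq_pow_sum,
      ← Fin.prod_univ_eq_prod_range fun j => p ^ (k - 1 - j)]
    congr 1
    exact prod_congr rfl fun j _ => by rw [Int.card_Ico, sub_zero, ← Nat.cast_pow, Int.toNat_natCast]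
  rcases Finset.eq_empty_or_nonempty (((good k p (Ico 0 N)).filter fun x => ∀ j : Fin k,
      (p : ℤ) ^ (j.1 + 1) ∣ Pw (fun i => x i + r) (j + 1) - c j).filter fun x => (fun j : Fin k =>
      (Pw (fun i => x i + r) (j + 1) - c j) / p ^ (j.1 + 1) % p ^ (k - 1 - j.1)) = b) with h | ⟨x, hx⟩
  · rw [h]; exact Nat.zero_le _
  refine (card_le_card (t := tup k (univ.image x)) fun y hy => mem_piFinset.2 fun i => ?_).trans ?_
  · obtain ⟨h1, h2⟩ := mem_filter.1 hx
    obtain ⟨h3, h4⟩ := mem_filter.1 hy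
    obtain ⟨h5, h6⟩ := mem_filter.1 h1
    obtain ⟨h7, h8⟩ := mem_filter.1 h3
    obtain ⟨l, hl⟩ := linnik hp hk (x := fun i => x i + r) (y := fun i => y i + r)
      (fun a b h => (mem_filter.1 h5).2 a b (by simpa using h)) (fun j => by
        obtain ⟨a, ha⟩ := h6 j
        obtain ⟨b, hb⟩ := h8 j
        have h9 := congrFun (h2.trans h4.symm) j
        simp only [ha, hb, Int.mul_ediv_cancel_left _ (pow_pos p0 _).ne'] at h9
        obtain ⟨d, hd⟩ := Int.ModEq.dvd h9.symm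
        refine ⟨d, ?_⟩
        rw [show (p : ℤ) ^ k = p ^ (j.1 + 1) * p ^ (k - 1 - j.1) by
          rw [← pow_add]; congr 1; omega, mul_assoc, ← hd]
        linear_combination ha - hb) i
    have a1 := mem_Ico.1 (mem_piFinset.1 (mem_filter.1 h5).1 l)
    have a2 := mem_Ico.1 (mem_piFinset.1 (mem_filter.1 h7).1 i)
    have := Int.eq_zero_of_abs_lt_dvd hl (by rw [abs_lt]; constructor <;> linarith)
    exact mem_image.2 ⟨l, mem_univ _, by linarith⟩
  · rw [card_tup]
    exact Nat.pow_le_pow_left (card_image_le.trans_eq (by simp)) _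

lemma cnt_good {p : ℕ} (hp : p.Prime) (hk : k < p) {N : ℕ} (hN : (N : ℤ) ≤ (p : ℤ) ^ k) (s : ℕ)
    (r : ℤ) : cnt (good k p (Ico 0 N) ×ˢ tup s (cls p r (Ico 0 N))) (fun z => ps k z.1 + ps k z.2)
      (good k p (Ico 0 N) ×ˢ tup s (cls p r (Ico 0 N))) (fun z => ps k z.1 + ps k z.2) ≤
      JV k s (cls p r (Ico 0 N)) * (N ^ k * (k ^ k * p ^ ∑ j ∈ range k, j)) := by
  refine (card_le_mul_card_image_of_maps_to (f := fun z => (z.1.1, z.2.1))
    (t := (good k p (Ico 0 N) ×ˢ good k p (Ico 0 N)).filter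
      fun w : (Fin k → ℤ) × (Fin k → ℤ) => ∀ j : Fin k,
      (p : ℤ) ^ (j.1 + 1) ∣ Pw (fun i => w.1 i + -r) (j + 1) - Pw (fun i => w.2 i + -r) (j + 1))
    (fun z hz => ?_) (JV k s (cls p r (Ico 0 N))) fun w _ => ?_).trans (Nat.mul_le_mul_left _ ?_)
  · obtain ⟨h1, h2⟩ := mem_filter.1 hz
    obtain ⟨h3, h4⟩ := mem_product.1 h1
    refine mem_filter.2 ⟨mem_product.2 ⟨(mem_product.1 h3).1, (mem_product.1 h4).1⟩, fun j => ?_⟩
    have e : ∀ u ∈ tup s (cls p r (Ico 0 N)), (p : ℤ) ^ (j.1 + 1) ∣ Pw (fun i => u i + -r) (j + 1) :=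
      fun u hu => dvd_sum fun i _ => pow_dvd_pow_of_dvd (by
        show (p : ℤ) ∣ u i + -r
        rw [← (mem_filter.1 (mem_piFinset.1 hu i)).2, ← sub_eq_add_neg]
        exact Int.dvd_self_sub_emod) _
    have := dvd_sub (e _ (mem_product.1 h4).2) (e _ (mem_product.1 h3).2)
    exact this.trans (dvd_of_eq (by linear_combination -Pw_shift h2 (-r) j))
  · refine le_trans (card_le_card_of_injOn (fun z => (z.1.2, z.2.2)) (fun z hz => ?_)
      fun z hz z' hz' h => ?_) (cnt_shift _ (ps k) (ps k w.1 - ps k w.2))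
    · obtain ⟨h0, rfl⟩ := mem_filter.1 hz
      obtain ⟨h1, h2⟩ := mem_filter.1 h0
      obtain ⟨h3, h4⟩ := mem_product.1 h1
      refine mem_filter.2 ⟨mem_product.2 ⟨(mem_product.1 h3).2, (mem_product.1 h4).2⟩, ?_⟩
      exact (add_sub_assoc _ _ _).symm.trans (sub_eq_iff_eq_add'.2 ((add_comm _ _).trans h2))
    · obtain ⟨h1, h2⟩ := Prod.mk.inj ((mem_filter.1 hz).2.trans (mem_filter.1 hz').2.symm)
      obtain ⟨h3, h4⟩ := Prod.mk.inj h
      exact Prod.ext (Prod.ext h1 h3) (Prod.ext h2 h4)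
  · refine (card_le_mul_card_image_of_maps_to (f := fun w => w.2) (t := tup k (Ico (0 : ℤ) N))
      (fun w hw => (mem_filter.1 (mem_product.1 (mem_filter.1 hw).1).2).1) _
      fun y _ => le_trans (card_le_card_of_injOn (fun w => w.1) (fun w hw => ?_)
        fun w hw w' hw' h => Prod.ext h ((mem_filter.1 hw).2.trans (mem_filter.1 hw').2.symm))
        (card_cong hp hk hN (-r) fun j => Pw (fun i => y i + -r) (j + 1))).trans_eq ?_
    · obtain ⟨h0, rfl⟩ := mem_filter.1 hw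
      exact mem_filter.2 ⟨(mem_product.1 (mem_filter.1 h0).1).1, (mem_filter.1 h0).2⟩
    · rw [card_tup, mul_comm]; simp

lemma ff_cls {p : ℤ} (hp : 0 < p) (A : Finset ℤ) (ω : Tor k) :
    ff k A ω = ∑ r ∈ Ico 0 p, ff k (cls p r A) ω :=
  (sum_fiberwise_of_maps_to (fun _ _ => mem_Ico.2 ⟨Int.emod_nonneg _ hp.ne',
    Int.emod_lt_of_pos _ hp⟩) _).symm

lemma young {a b θ : ℝ} (ha : 0 ≤ a) (hb : 0 ≤ b) (hθ : 1 ≤ θ) (n : ℕ) :
    θ * (b * a ^ n) ≤ a ^ (n + 1) + (θ * b) ^ (n + 1) := by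
  rcases le_total (θ * b) a with h | h
  · have := mul_le_mul_of_nonneg_right h (pow_nonneg ha n)
    have : 0 ≤ (θ * b) ^ (n + 1) := by positivity
    rw [pow_succ]
    linarith
  · have := mul_le_mul_of_nonneg_left (pow_le_pow_left₀ ha h n) (show 0 ≤ θ * b by positivity)
    have : 0 ≤ a ^ (n + 1) := by positivity
    rw [pow_succ (θ * b)]
    linarith

lemma cnt_cover (p : ℤ) (hp : 0 < p) (A : Finset ℤ) {κ : Type} {s : ℕ} (Z : Finset (Fin s → ℤ))
    (Y : Finset κ) (ψ : κ → Fin k → ℤ) :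
    cnt (tup k A ×ˢ Z) (fun z => ps k z.1 + ps k z.2) Y ψ ≤
      cnt (good k p A ×ˢ Z) (fun z => ps k z.1 + ps k z.2) Y ψ +
      ∑ c ∈ (univ : Finset (Fin k)).offDiag ×ˢ Ico 0 p, cnt ((piFinset fun i =>
        if i = c.1.1 ∨ i = c.1.2 then cls p c.2 A else A) ×ˢ Z) (fun z => ps k z.1 + ps k z.2) Y ψ := by
  classical
  refine le_trans (card_le_card fun z hz => ?_) ((card_union_le _ _).trans
    (Nat.add_le_add_left card_biUnion_le _))
  obtain ⟨h1, h2⟩ := mem_filter.1 hz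
  obtain ⟨h3, h4⟩ := mem_product.1 h1
  obtain ⟨h5, h6⟩ := mem_product.1 h3
  by_cases h : ∀ a b, p ∣ z.1.1 a - z.1.1 b → a = b
  · exact mem_union_left _ (mem_filter.2 ⟨mem_product.2 ⟨mem_product.2 ⟨mem_filter.2 ⟨h5, h⟩, h6⟩,
      h4⟩, h2⟩)
  push Not at h
  obtain ⟨a, b, hd, hab⟩ := h
  refine mem_union_right _ (mem_biUnion.2 ⟨((a, b), z.1.1 a % p), mem_product.2 ⟨by simpa using hab,
    mem_Ico.2 ⟨Int.emod_nonneg _ hp.ne', Int.emod_lt_of_pos _ hp⟩⟩, mem_filter.2 ⟨mem_product.2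
      ⟨mem_product.2 ⟨mem_piFinset.2 fun i => ?_, h6⟩, h4⟩, h2⟩⟩)
  split_ifs with hi
  · refine mem_filter.2 ⟨mem_piFinset.1 h5 i, ?_⟩
    rcases hi with rfl | rfl
    · rfl
    · exact Int.modEq_iff_dvd.2 hd
  · exact mem_piFinset.1 h5 i

lemma JV_zero (A : Finset ℤ) : JV 0 1 A = A.card * A.card := by
  rw [JV, cnt, filter_true_of_mem fun _ _ => Subsingleton.elim _ _, card_product, card_tup, pow_one]

lemma JV_triv (s : ℕ) (A : Finset ℤ) : JV k s A ≤ A.card ^ (2 * s) :=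
  (card_filter_le _ _).trans_eq (by rw [card_product, card_tup, two_mul, pow_add])

theorem JV_rec {p : ℕ} (hp : p.Prime) (k2 : 2 ≤ k) (hk : k < p) {N L : ℕ} (hN : N ≤ p ^ k)
    (hL : N ≤ p * L) (s : ℕ) (hs : 1 ≤ s) : (JV k (k + s) (Ico 0 N) : ℝ) ≤
      2 * (p ^ (2 * s) * (N ^ k * (k ^ k * p ^ ∑ j ∈ range k, j)) +
        (4 * k ^ 2 * p) ^ (k + s) * (L ^ 2) ^ k) * JV k s (Ico 0 L) := by
  have p0 : (0 : ℤ) < p := by exact_mod_cast hp.pos
  have cp : ((Ico (0 : ℤ) p).card : ℝ) = p := by simp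
  have hJ : ∀ r, (JV k s (cls p r (Ico 0 N)) : ℝ) ≤ JV k s (Ico 0 L) := fun r => by
    exact_mod_cast JV_cls s p0 (by exact_mod_cast hL) r
  have hc : ∀ r, ((cls p r (Ico 0 N)).card : ℝ) ≤ L := fun r => by
    have := JV_cls (k := 0) 1 p0 (show (N : ℤ) ≤ p * L by exact_mod_cast hL) r
    rw [JV_zero, JV_zero, Int.card_Ico, sub_zero, Int.toNat_natCast] at this
    exact_mod_cast Nat.mul_self_le_mul_self_iff.1 this
  have hg := fun r => cnt_good hp hk (show (N : ℤ) ≤ (p : ℤ) ^ k by exact_mod_cast hN) s r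
  have hD : (N ^ k * (k ^ k * p ^ ∑ j ∈ range k, j) : ℝ) =
    (N ^ k * (k ^ k * p ^ ∑ j ∈ range k, j) : ℕ) := by push_cast; rfl
  rw [hD]
  generalize N ^ k * (k ^ k * p ^ ∑ j ∈ range k, j) = D at hg ⊢
  generalize Ico (0 : ℤ) N = A at *
  have e1 : (JV k (k + s) A : ℝ) = cnt (tup k A ×ˢ tup s A) (fun z => ps k z.1 + ps k z.2)
      (tup (k + s) A) (ps k) := by
    have := (cnt_eq (tup (k + s) A) (ps k) (tup (k + s) A) (ps k)).trans (by
      simp only [SS_tup, cnt_eq, SS_prod, pow_add] : _ = (cnt (tup k A ×ˢ tup s A)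
        (fun z => ps k z.1 + ps k z.2) (tup (k + s) A) (ps k) : ℂ))
    exact_mod_cast this
  have b1 : (cnt (good k p A ×ˢ tup s A) (fun z => ps k z.1 + ps k z.2) (tup (k + s) A) (ps k) : ℝ)
      ≤ 1 / 4 * JV k (k + s) A + p ^ (2 * s) * D * JV k s (Ico 0 L) := by
    obtain ⟨n, hn⟩ : ∃ n, 2 * s = n + 1 := ⟨2 * s - 1, by omega⟩
    calc _ ≤ ∫ ω, 1 / 4 * (‖ff k A ω‖ ^ 2) ^ (k + s) + p ^ n * ∑ r ∈ Ico (0 : ℤ) p,
            ‖SS (good k p A ×ˢ tup s (cls p r A)) (fun z => ps k z.1 + ps k z.2) ω‖ ^ 2 ∂mu k := by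
          refine (cnt_le _ _ _ _).trans (integral_mono (itg (by fun_prop)) (itg (by fun_prop))
            fun ω => ?_)
          have h1 := pow_le_pow_left₀ (norm_nonneg _) ((congrArg _ (ff_cls p0 A ω)).trans_le
            (norm_sum_le _ _)) (n + 1)
          have h2 := h1.trans (pow_sum_le_card_mul_sum_pow (fun _ _ => norm_nonneg _) n)
          have h3 := mul_le_mul_of_nonneg_left h2 (sq_nonneg ‖SS (good k p A) (ps k) ω‖)
          simp only [SS_prod, SS_tup, norm_mul, norm_pow, mul_pow, ← pow_mul, mul_comm s 2, hn,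
            ← mul_sum]
          rw [cp, ← hn, pow_mul'] at h3
          rw [pow_mul', ← hn]
          nlinarith [sq_nonneg (‖SS (good k p A) (ps k) ω‖ * ‖ff k A ω‖ ^ s -
            ‖ff k A ω‖ ^ (k + s) / 2)]
      _ ≤ _ := by
          rw [integral_add (itg (by fun_prop)) (itg (by fun_prop)), integral_const_mul,
            integral_const_mul, integral_finsetSum _ fun _ _ => itg (by fun_prop), ← JV_eq, hn,
            pow_succ, mul_assoc, mul_assoc]
          gcongr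
          rw [← cp, ← nsmul_eq_mul, ← sum_const]
          refine sum_le_sum fun r _ => ?_
          rw [← cnt_self, mul_comm]
          exact le_trans (by exact_mod_cast hg r) (mul_le_mul_of_nonneg_right (hJ r) D.cast_nonneg)
  obtain ⟨n, hn⟩ : ∃ n, k + s = n + 1 := ⟨k + s - 1, by omega⟩
  have k1 : (2 : ℝ) ≤ k := by exact_mod_cast k2
  have b2 : ∀ c ∈ (univ : Finset (Fin k)).offDiag, 4 * (k : ℝ) ^ 2 * ∑ r ∈ Ico (0 : ℤ) p,
      (cnt ((piFinset fun i => if i = c.1 ∨ i = c.2 then cls p r A else A) ×ˢ tup s A)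
        (fun z => ps k z.1 + ps k z.2) (tup (k + s) A) (ps k) : ℝ) ≤ JV k (k + s) A +
        (4 * k ^ 2 * p) ^ (k + s) * (L ^ 2) ^ k * JV k s (Ico 0 L) := fun c hc' => by
    have cc : (univ.filter fun i => i = c.1 ∨ i = c.2).card = 2 := by
      rw [← card_pair (mem_offDiag.1 hc').2.2]
      congr 1
      ext i
      simp
    have cd := card_filter_add_card_filter_not (s := univ) fun i => i = c.1 ∨ i = c.2
    rw [cc, card_univ, Fintype.card_fin] at cd
    calc _ ≤ 4 * (k : ℝ) ^ 2 * ∑ r ∈ Ico (0 : ℤ) p,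
            ∫ ω, ‖ff k (cls p r A) ω‖ ^ 2 * (‖ff k A ω‖ ^ 2) ^ n ∂mu k := by
          gcongr with r
          refine (cnt_le _ _ _ _).trans_eq (integral_congr_ae (.of_forall fun ω => ?_))
          simp only [SS_prod, SS_tup, SS_pi, apply_ite (fun B => ff k B ω), prod_ite, prod_const,
            cc, norm_mul, norm_pow, ← pow_mul, mul_assoc, ← pow_add]
          congr 2
          omega
      _ ≤ ∫ ω, (‖ff k A ω‖ ^ 2) ^ (k + s) + (4 * k ^ 2) ^ (k + s) * p ^ n * (L ^ 2) ^ k *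
            ∑ r ∈ Ico (0 : ℤ) p, (‖ff k (cls p r A) ω‖ ^ 2) ^ s ∂mu k := by
          rw [← integral_finsetSum _ fun _ _ => itg (by fun_prop), ← integral_const_mul]
          refine integral_mono (itg (by fun_prop)) (itg (by fun_prop)) fun ω => ?_
          simp only [← sum_mul]
          refine (young (sq_nonneg _) (sum_nonneg fun _ _ => sq_nonneg _) (by nlinarith) n).trans ?_
          rw [mul_pow, hn, mul_assoc, mul_assoc]
          gcongr
          refine (pow_sum_le_card_mul_sum_pow (fun _ _ => sq_nonneg _) n).trans ?_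
          rw [cp, ← hn]
          refine mul_le_mul_of_nonneg_left ?_ (by positivity)
          rw [mul_sum]
          refine sum_le_sum fun r _ => ?_
          rw [pow_add]
          exact mul_le_mul_of_nonneg_right (pow_le_pow_left₀ (sq_nonneg _)
            (pow_le_pow_left₀ (norm_nonneg _) ((norm_ff _ _).trans (hc r)) 2) k) (by positivity)
      _ ≤ _ := by
          rw [integral_add (itg (by fun_prop)) (itg (by fun_prop)), integral_const_mul,
            integral_finsetSum _ fun _ _ => itg (by fun_prop), ← JV_eq, mul_pow _ (p : ℝ)]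
          simp only [← JV_eq]
          have := sum_le_sum fun r (_ : r ∈ Ico (0 : ℤ) p) => hJ r
          rw [sum_const, nsmul_eq_mul, cp] at this
          refine add_le_add le_rfl ((mul_le_mul_of_nonneg_left this (by positivity)).trans_eq ?_)
          rw [hn, pow_succ (p : ℝ)]
          ring
  have b3 := sum_le_sum b2
  rw [← mul_sum, sum_const, nsmul_eq_mul, ← sum_product'] at b3
  have b4 : ((univ : Finset (Fin k)).offDiag.card : ℝ) ≤ k ^ 2 := by
    rw [offDiag_card, card_univ, Fintype.card_fin, sq]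
    exact_mod_cast Nat.sub_le _ _
  have b5 := b3.trans (mul_le_mul_of_nonneg_right b4 (by positivity))
  rw [mul_comm 4, mul_assoc] at b5
  have b6 := le_of_mul_le_mul_left b5 (by positivity)
  have b7 := (Nat.cast_le (α := ℝ)).2 (cnt_cover p p0 A (tup s A) (tup (k + s) A) (ps k))
  rw [Nat.cast_add, Nat.cast_sum, ← e1] at b7
  rw [mul_comm _ 4] at b6
  have : 0 ≤ (4 * (k : ℝ) ^ 2 * p) ^ (k + s) * (L ^ 2) ^ k * JV k s (Ico 0 L) := by positivity
  linarith

end Pool.Agent.Lib.VK
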