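import Pool.Agent.Lib.VK.V2

/-! Vinogradov's mean value theorem in the classical (Linnik, Karatsuba) form. -/

namespace Pool.Agent.Lib.VK

open Finset

variable {k : ℕ}

lemma step_bd {m s : ℕ} (m1 : 1 ≤ m) (hs : (m + 1) ^ 2 ≤ s) {p N L Z : ℝ} (Z1 : 1 ≤ Z) (p0 : 0 ≤ p)
    (N0 : 0 ≤ N) (L0 : 0 ≤ L) (hp : p ≤ 4 * (m + 1 : ℕ) * Z) (hN : N ≤ Z ^ (m + 1))
    (hL : L ≤ 2 * Z ^ m) (σ : ℕ) (hσ : σ ≤ (m + 1) ^ 2) :
    p ^ (2 * s) * (N ^ (m + 1) * (((m + 1 : ℕ) : ℝ) ^ (m + 1) * p ^ σ)) +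
      (4 * ((m + 1 : ℕ) : ℝ) ^ 2 * p) ^ (m + 1 + s) * (L ^ 2) ^ (m + 1) ≤
      2 * (4 * ((m + 1 : ℕ) : ℝ)) ^ (3 * (m + 1 + s)) * Z ^ (2 * s + (m + 1) ^ 2 + σ) := by
  have k1 : (1 : ℝ) ≤ (m + 1 : ℕ) := by exact_mod_cast Nat.le_add_left 1 m
  generalize ((m + 1 : ℕ) : ℝ) = κ at *
  rw [two_mul (_ ^ (3 * (m + 1 + s))), add_mul]
  refine add_le_add ?_ ?_
  · calc _ ≤ (4 * κ * Z) ^ (2 * s) * ((Z ^ (m + 1)) ^ (m + 1) * ((4 * κ) ^ (m + 1) *
          (4 * κ * Z) ^ σ)) := by gcongr; linarith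
      _ = (4 * κ) ^ (2 * s + (m + 1) + σ) * Z ^ (2 * s + (m + 1) ^ 2 + σ) := by ring
      _ ≤ _ := by
        gcongr
        · linarith
        · omega
  · calc _ ≤ (4 * κ ^ 2 * (4 * κ * Z)) ^ (m + 1 + s) * ((2 * Z ^ m) ^ 2) ^ (m + 1) := by gcongr
      _ = (16 * κ ^ 3) ^ (m + 1 + s) * 4 ^ (m + 1) * Z ^ (m + 1 + s + 2 * m * (m + 1)) := by
        rw [show 4 * κ ^ 2 * (4 * κ * Z) = 16 * κ ^ 3 * Z by ring, mul_pow _ Z, mul_pow 2,
          mul_pow (2 ^ 2), show (2 : ℝ) ^ 2 = 4 by norm_num]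
        ring
      _ ≤ (16 * κ ^ 3) ^ (m + 1 + s) * 4 ^ (m + 1 + s) * Z ^ (2 * s + (m + 1) ^ 2 + σ) := by
        refine mul_le_mul (mul_le_mul_of_nonneg_left (pow_le_pow_right₀ (by norm_num) (by omega))
          (by positivity)) (pow_le_pow_right₀ Z1 (by nlinarith)) (by positivity) (by positivity)
      _ = _ := by rw [← mul_pow, pow_mul (4 * κ)]; congr 2; ring

theorem JV_iter (k2 : 2 ≤ k) (r : ℕ) : ∀ Y : ℝ, 1 ≤ Y → ∀ N : ℕ, (N : ℝ) ≤ Y →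
    (JV k (k ^ 2 + r * k) (Ico 0 N) : ℝ) ≤ (4 * k) ^ (4 * r * (k ^ 2 + r * k)) *
      Y ^ (2 * ((k ^ 2 + r * k : ℕ) : ℝ) - k * (k + 1) / 2 + k * (k + 1) / 2 * (1 - 1 / k) ^ r) := by
  induction r with
  | zero =>
    intro Y Y1 N hN
    have := (Nat.cast_le (α := ℝ)).2 (JV_triv (k := k) (k ^ 2 + 0 * k) (Ico (0 : ℤ) N))
    rw [pow_zero, mul_one, sub_add_cancel, mul_zero, zero_mul (k ^ 2 + 0 * k), pow_zero, one_mul,
      show 2 * ((k ^ 2 + 0 * k : ℕ) : ℝ) = (2 * (k ^ 2 + 0 * k) : ℕ) by push_cast; ring,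
      Real.rpow_natCast]
    refine this.trans ?_
    rw [Int.card_Ico, sub_zero, Int.toNat_natCast, Nat.cast_pow]
    gcongr
  | succ r ih =>
    intro Y Y1 N hN
    obtain ⟨m, rfl⟩ : ∃ m, k = m + 1 := ⟨k - 1, by omega⟩
    have k1 : (2 : ℝ) ≤ (m + 1 : ℕ) := by exact_mod_cast k2
    obtain ⟨Z, Z1, rfl⟩ : ∃ Z : ℝ, 1 ≤ Z ∧ Y = Z ^ (m + 1) :=
      ⟨Y ^ (((m + 1 : ℕ) : ℝ)⁻¹), Real.one_le_rpow Y1 (by positivity),
        (Real.rpow_inv_natCast_pow (by linarith) (by omega)).symm⟩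
    obtain ⟨p, hp, h1, h2⟩ := Nat.exists_prime_lt_and_le_two_mul (max (m + 1) ⌈Z⌉₊) (by omega)
    have Zp : Z ≤ p := (Nat.le_ceil Z).trans (by exact_mod_cast (le_max_right _ _).trans h1.le)
    have pZ : (p : ℝ) ≤ 4 * (m + 1 : ℕ) * Z := by
      have : ((max (m + 1) ⌈Z⌉₊ : ℕ) : ℝ) ≤ 2 * (m + 1 : ℕ) * Z := by
        rw [Nat.cast_max]
        have := Nat.ceil_lt_add_one (show 0 ≤ Z by linarith)
        exact max_le (by nlinarith) (by nlinarith)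
      have h3 := (Nat.cast_le (α := ℝ)).2 h2
      rw [Nat.cast_mul, Nat.cast_two] at h3
      linarith
    have Zm : 1 ≤ Z ^ m := one_le_pow₀ Z1
    have hL : (⌈Z ^ m⌉₊ : ℝ) ≤ 2 * Z ^ m := by
      have := Nat.ceil_lt_add_one (show 0 ≤ Z ^ m by linarith)
      linarith
    have h4 := ih (2 * Z ^ m) (by linarith) _ hL
    have hs : (m + 1) ^ 2 ≤ (m + 1) ^ 2 + r * (m + 1) := Nat.le_add_right _ _
    rw [show (m + 1) ^ 2 + (r + 1) * (m + 1) = m + 1 + ((m + 1) ^ 2 + r * (m + 1)) by ring]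
    generalize (m + 1) ^ 2 + r * (m + 1) = s at *
    have hσ : (∑ j ∈ range (m + 1), j) * 2 = (m + 1) * m := sum_range_id_mul_two (m + 1)
    have h5 := JV_rec hp k2 ((le_max_left _ _).trans_lt h1) (N := N) (L := ⌈Z ^ m⌉₊)
      (by exact_mod_cast hN.trans (pow_le_pow_left₀ (by linarith) Zp _))
      (by
        refine (Nat.cast_le (α := ℝ)).1 (hN.trans ?_)
        rw [pow_succ', Nat.cast_mul]
        exact mul_le_mul Zp (Nat.le_ceil _) (by linarith) p.cast_nonneg) s (by nlinarith)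
    generalize ∑ j ∈ range (m + 1), j = σ at *
    generalize ⌈Z ^ m⌉₊ = L at *
    have h6 := step_bd (by omega) hs Z1 p.cast_nonneg N.cast_nonneg (Nat.cast_nonneg _) pZ hN hL σ
      (by nlinarith)
    have hσ' : (σ : ℝ) * 2 = (m + 1) * m := by exact_mod_cast hσ
    have hs' : ((m : ℝ) + 1) ^ 2 ≤ s := by exact_mod_cast hs
    have q0 : (0 : ℝ) ≤ 1 - 1 / (m + 1 : ℕ) := by
      rw [sub_nonneg, div_le_one (by linarith)]; linarith
    have q1 : (1 - 1 / (m + 1 : ℕ) : ℝ) ^ r ≤ 1 := pow_le_one₀ q0 (sub_le_self _ (by positivity))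
    rw [pow_succ _ r]
    generalize (1 - 1 / (m + 1 : ℕ) : ℝ) ^ r = q at *
    have h7 : (2 : ℝ) ^ (2 * (s : ℝ) - (m + 1 : ℕ) * ((m + 1 : ℕ) + 1) / 2 +
        (m + 1 : ℕ) * ((m + 1 : ℕ) + 1) / 2 * q) ≤ 4 ^ s := by
      rw [show (4 : ℝ) = 2 ^ 2 by norm_num, ← pow_mul, ← Real.rpow_natCast, Nat.cast_mul,
        Nat.cast_two]
      refine Real.rpow_le_rpow_of_exponent_le one_le_two ?_
      have := mul_le_mul_of_nonneg_left q1
        (show (0 : ℝ) ≤ (m + 1 : ℕ) * ((m + 1 : ℕ) + 1) / 2 by positivity)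
      linarith
    rw [Real.mul_rpow zero_le_two (by linarith), ← Real.rpow_natCast Z,
      ← Real.rpow_mul (by linarith)] at h4
    have h9 := h4.trans (mul_le_mul_of_nonneg_left (mul_le_mul_of_nonneg_right h7
      (Real.rpow_nonneg (by linarith) _)) (pow_nonneg (by linarith) _))
    have h8 := h5.trans (mul_le_mul (mul_le_mul_of_nonneg_left h6 zero_le_two) h9
      (Nat.cast_nonneg _) (by positivity))
    refine h8.trans ?_
    rw [← Real.rpow_natCast Z (m + 1), ← Real.rpow_mul (by linarith), ← Real.rpow_natCast Z]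
    have e : ∀ a b c d x y : ℝ, 2 * (2 * a * Z ^ x) * (b * (c * Z ^ y)) =
        4 * c * a * b * Z ^ (x + y) := fun a b c d x y => by
      rw [Real.rpow_add (by linarith)]; ring
    rw [e _ _ _ 0]
    refine mul_le_mul ?_ (le_of_eq ?_) (by positivity) (by positivity)
    · calc _ ≤ (4 * ((m + 1 : ℕ) : ℝ)) ^ (m + 1) * (4 * (m + 1 : ℕ)) ^ s *
            (4 * (m + 1 : ℕ)) ^ (3 * (m + 1 + s)) * (4 * (m + 1 : ℕ)) ^ (4 * r * (m + 1 + s)) := by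
            gcongr
            · exact le_trans (by linarith) (le_self_pow₀ (by linarith) (by omega))
            · linarith
            · linarith
            · omega
        _ = _ := by rw [← pow_add, ← pow_add, ← pow_add]; congr 1; ring
    · congr 1
      push_cast
      field_simp
      linear_combination hσ'

/-- Vinogradov's mean value theorem with `s = k² + 72 k⁴` variables and defect `1 / 72`. -/
theorem vmvt (k2 : 2 ≤ k) {X : ℕ} (X1 : 1 ≤ X) :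
    (JV k (k ^ 2 + 72 * k ^ 3 * k) (Ico 0 X) : ℝ) * X ^ ∑ j : Fin k, (j.1 + 1) ≤
      (4 * k) ^ (4 * (72 * k ^ 3) * (k ^ 2 + 72 * k ^ 3 * k)) * X ^ (2 * (k ^ 2 + 72 * k ^ 3 * k)) *
        (X : ℝ) ^ (1 / 72 : ℝ) := by
  have x1 : (1 : ℝ) ≤ X := by exact_mod_cast X1
  have k1 : (2 : ℝ) ≤ k := by exact_mod_cast k2
  refine (mul_le_mul_of_nonneg_right (JV_iter k2 _ X x1 X le_rfl) (by positivity)).trans ?_
  rw [mul_assoc, mul_assoc _ (_ ^ (2 * _)), ← Real.rpow_natCast (X : ℝ),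
    ← Real.rpow_natCast (X : ℝ), ← Real.rpow_add (by linarith), ← Real.rpow_add (by linarith)]
  refine mul_le_mul_of_nonneg_left (Real.rpow_le_rpow_of_exponent_le x1 ?_) (by positivity)
  have e : ((∑ j : Fin k, (j.1 + 1) : ℕ) : ℝ) * 2 = (k + 1) * k := by
    have := sum_range_id_mul_two (k + 1)
    rw [sum_range_succ'] at this
    rw [Fin.sum_univ_eq_sum_range (fun j => j + 1)]
    exact_mod_cast this
  have h1 := one_add_mul_le_pow (show (-2 : ℝ) ≤ 1 / k by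
    exact le_trans (by norm_num) (by positivity : (0 : ℝ) ≤ 1 / k)) (72 * k ^ 3)
  have q0 : (0 : ℝ) ≤ 1 - 1 / k := by rw [sub_nonneg, div_le_one (by linarith)]; linarith
  have h2 : (1 - 1 / k : ℝ) ^ (72 * k ^ 3) * (1 + 1 / k) ^ (72 * k ^ 3) ≤ 1 := by
    rw [← mul_pow]
    exact pow_le_one₀ (by positivity) (by nlinarith [sq_nonneg (1 / k : ℝ)])
  have h3 : ((72 * k ^ 3 : ℕ) : ℝ) * (1 / k) = 72 * k ^ 2 := by push_cast; field_simp
  have h4 := pow_nonneg q0 (72 * k ^ 3)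
  rw [h3] at h1
  generalize (1 - 1 / k : ℝ) ^ (72 * k ^ 3) = q at *
  have h5 := mul_le_mul_of_nonneg_left h1 h4
  have h6 : (k : ℝ) * (k + 1) / 2 * q ≤ k ^ 2 * q := by gcongr; nlinarith
  rw [Nat.cast_mul 2, Nat.cast_two]
  nlinarith

end Pool.Agent.Lib.VK
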