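import Pool.Agent.Lib.VK.V3

/-! Vinogradov's bilinear estimate (Hölder's inequality twice). -/

namespace Pool.Agent.Lib.VK

open Finset Complex ComplexConjugate
open Fintype (piFinset mem_piFinset)
open scoped Real

variable {k : ℕ}

noncomputable def ee (x : ℝ) : ℂ := cexp (2 * π * I * x)

lemma ee_sum {ι : Type} (s : Finset ι) (f : ι → ℝ) : ee (∑ i ∈ s, f i) = ∏ i ∈ s, ee (f i) := by
  simp only [ee, ofReal_sum, mul_sum, Complex.exp_sum]

lemma ee_sub (x y : ℝ) : ee x * conj (ee y) = ee (x - y) := by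
  rw [ee, ee, ee, ← exp_conj, ← Complex.exp_add]
  congr 1
  simp only [map_mul, conj_ofReal, conj_I, map_ofNat, ofReal_sub]
  ring

lemma norm_ee (x : ℝ) : ‖ee x‖ = 1 := by
  rw [ee, show 2 * π * I * x = (2 * π * x : ℝ) * I by push_cast; ring, norm_exp_ofReal_mul_I]

/-- the bicharacter -/
noncomputable def EE (α : Fin k → ℝ) (a b : Fin k → ℤ) : ℂ := ee (∑ j, α j * a j * b j)

def vv (k : ℕ) (x : ℤ) : Fin k → ℤ := fun j => x ^ (j.1 + 1)

lemma EE_comm (α : Fin k → ℝ) (a b : Fin k → ℤ) : EE α a b = EE α b a := by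
  simp only [EE, mul_right_comm]

lemma EE_sub (α : Fin k → ℝ) (a c b : Fin k → ℤ) : EE α a b * conj (EE α c b) = EE α (a - c) b := by
  simp only [EE, ee_sub, ← sum_sub_distrib, Pi.sub_apply, Int.cast_sub, mul_sub, sub_mul]

lemma pw_sum (α : Fin k → ℝ) (A : Finset ℤ) (c : ℤ → ℂ) (b : Fin k → ℤ) (s : ℕ) :
    (∑ x ∈ A, c x * EE α (vv k x) b) ^ s = ∑ x ∈ tup s A, (∏ i, c (x i)) * EE α (ps k x) b := by
  rw [sum_pow']
  refine sum_congr rfl fun x _ => ?_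
  rw [prod_mul_distrib]
  simp only [EE, ← ee_sum, ps, Pw, vv, Int.cast_sum, mul_sum, sum_mul]
  rw [sum_comm]

lemma fib {ι β : Type} [DecidableEq β] {X : Finset ι} {φ : ι → β} {B : Finset β}
    (h : ∀ i ∈ X, φ i ∈ B) (g : β → ℝ) :
    ∑ i ∈ X, g (φ i) = ∑ b ∈ B, (X.filter fun i => φ i = b).card * g b := by
  rw [← sum_fiberwise_of_maps_to' h]
  simp only [sum_const, nsmul_eq_mul]

theorem bil (α : Fin k → ℝ) (A : Finset ℤ) (n : ℕ) (B D : Fin k → Finset ℤ)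
    (hB : ∀ y ∈ tup (n + 1) A, ps k y ∈ piFinset B)
    (hD : ∀ z ∈ tup (n + 1) A ×ˢ tup (n + 1) A, ps k z.1 - ps k z.2 ∈ piFinset D) :
    ‖∑ x ∈ A, ∑ y ∈ A, EE α (vv k x) (vv k y)‖ ^ (2 * (n + 1) ^ 2) ≤
      A.card ^ (4 * (n + 1) * n) * (JV k (n + 1) A : ℝ) ^ 2 *
        ∏ j, ∑ m ∈ D j, ‖∑ l ∈ B j, ee (α j * m * l)‖ := by
  choose ε e1 e2 using fun x => exists_norm_eq_mul_self ((∑ y ∈ A, EE α (vv k x) (vv k y)) ^ (n + 1))
  obtain ⟨T, hT⟩ : ∃ T : (Fin k → ℤ) → ℂ, ∀ l, T l = ∑ x ∈ A, ε x * EE α (vv k x) l := ⟨_, fun _ => rfl⟩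
  have h1 : ‖∑ x ∈ A, ∑ y ∈ A, EE α (vv k x) (vv k y)‖ ^ (n + 1) ≤
      A.card ^ n * ∑ y ∈ tup (n + 1) A, ‖T (ps k y)‖ := by
    refine ((pow_le_pow_left₀ (norm_nonneg _) (norm_sum_le _ _) _).trans
      (pow_sum_le_card_mul_sum_pow (fun _ _ => norm_nonneg _) n)).trans ?_
    refine mul_le_mul_of_nonneg_left (le_trans (le_of_eq ?_) (norm_sum_le _ _)) (by positivity)
    rw [← Real.norm_of_nonneg (sum_nonneg fun _ _ => pow_nonneg (norm_nonneg _) _), ← norm_real]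
    simp only [← norm_pow, ofReal_sum, e2, hT]
    rw [sum_comm]
    refine congrArg _ (sum_congr rfl fun x _ => ?_)
    have := pw_sum α A (fun _ => 1) (vv k x) (n + 1)
    simp only [one_mul, prod_const_one, EE_comm α _ (vv k x)] at this
    rw [this, mul_sum]
  have h2 := pow_sum_le_card_mul_sum_pow (fun y (_ : y ∈ tup (n + 1) A) => norm_nonneg (T (ps k y))) n
  rw [fib hB fun l => ‖T l‖ ^ (n + 1), card_tup] at h2
  have h3 := sum_mul_sq_le_sq_mul_sq (piFinset B)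
    (fun b => (((tup (n + 1) A).filter fun i => ps k i = b).card : ℝ)) fun l => ‖T l‖ ^ (n + 1)
  have h4 : ∑ b ∈ piFinset B, (((tup (n + 1) A).filter fun i => ps k i = b).card : ℝ) ^ 2 =
      JV k (n + 1) A := by
    simp only [sq]
    rw [← fib hB fun b => (((tup (n + 1) A).filter fun i => ps k i = b).card : ℝ), JV, cnt,
      card_filter, sum_product_right]
    simp only [card_filter, Nat.cast_sum]
  have h5 : ∑ l ∈ piFinset B, (‖T l‖ ^ (n + 1)) ^ 2 ≤ ∑ z ∈ tup (n + 1) A ×ˢ tup (n + 1) A,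
      ‖∑ l ∈ piFinset B, EE α (ps k z.1 - ps k z.2) l‖ := by
    rw [← Real.norm_of_nonneg (sum_nonneg fun _ _ => sq_nonneg _), ← norm_real]
    have e : ∀ l, ((‖T l‖ ^ (n + 1)) ^ 2 : ℝ) = T l ^ (n + 1) * conj (T l ^ (n + 1)) := fun l => by
      rw [mul_conj, normSq_eq_norm_sq, norm_pow]
    simp only [ofReal_sum, e]
    simp only [hT, pw_sum, map_sum, sum_mul_sum, ← sum_product']
    rw [sum_product_right]
    refine (norm_sum_le _ _).trans (sum_le_sum fun z _ => le_of_eq ?_)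
    simp only [map_mul, mul_mul_mul_comm _ (EE α _ _), EE_sub, ← mul_sum, norm_mul, norm_conj,
      norm_prod, e1, prod_const_one, one_mul]
  have h6 : ∑ z ∈ tup (n + 1) A ×ˢ tup (n + 1) A,
      ‖∑ l ∈ piFinset B, EE α (ps k z.1 - ps k z.2) l‖ ≤
      JV k (n + 1) A * ∏ j, ∑ m ∈ D j, ‖∑ l ∈ B j, ee (α j * m * l)‖ := by
    rw [fib hD fun m => ‖∑ l ∈ piFinset B, EE α m l‖, prod_univ_sum, mul_sum]
    refine sum_le_sum fun m _ => mul_le_mul ?_ (le_of_eq ?_) (norm_nonneg _) (Nat.cast_nonneg _)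
    · refine Nat.cast_le.2 (le_trans (le_of_eq ?_) (cnt_shift (tup (n + 1) A) (ps k) (-m)))
      simp only [cnt, sub_eq_iff_eq_add', add_neg_eq_iff_eq_add]
    · rw [← norm_prod, prod_univ_sum]
      simp only [EE, ee_sum]
  rw [h4] at h3
  have h7 := h3.trans (mul_le_mul_of_nonneg_left (h5.trans h6) (Nat.cast_nonneg _))
  calc _ = ((‖∑ x ∈ A, ∑ y ∈ A, EE α (vv k x) (vv k y)‖ ^ (n + 1)) ^ (n + 1)) ^ 2 := by ring
    _ ≤ ((A.card ^ n * ∑ y ∈ tup (n + 1) A, ‖T (ps k y)‖) ^ (n + 1)) ^ 2 := by gcongr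
    _ ≤ ((A.card ^ n) ^ (n + 1) * (((A.card ^ (n + 1) : ℕ) : ℝ) ^ n * _)) ^ 2 := by
      rw [mul_pow]
      exact pow_le_pow_left₀ (by positivity) (mul_le_mul_of_nonneg_left h2 (by positivity)) 2
    _ ≤ _ := by
      rw [← mul_assoc, mul_pow]
      refine (mul_le_mul_of_nonneg_left h7 (sq_nonneg _)).trans_eq ?_
      push_cast
      ring

lemma geom_le {x : ℝ} (h : |x| ≤ 1 / 2) (Z : ℕ) :
    ‖∑ l ∈ Ico (0 : ℤ) Z, ee (x * l)‖ * (2 * |x|) ≤ 1 := by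
  have e : (∑ l ∈ Ico (0 : ℤ) Z, ee (x * l)) * (ee x - 1) = ee (x * Z) - 1 := by
    induction Z with
    | zero => simp [ee]
    | succ Z ih =>
      rw [Nat.cast_succ, ← insert_Ico_right_eq_Ico_add_one (by positivity), sum_insert (by simp),
        add_mul, ih]
      simp only [ee, Int.cast_natCast, mul_sub, ← Complex.exp_add]
      push_cast
      ring_nf
  have h1 : 4 * |x| ≤ ‖ee x - 1‖ := by
    rw [ee, show 2 * π * I * x = I * (2 * π * x : ℝ) by push_cast; ring,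
      norm_exp_I_mul_ofReal_sub_one, norm_mul, Real.norm_eq_abs (Real.sin _), Real.norm_two,
      show 2 * π * x / 2 = π * x by ring]
    have := Real.mul_abs_le_abs_sin (x := π * x) (by
      rw [abs_mul, abs_of_pos Real.pi_pos]; nlinarith [Real.pi_pos])
    rw [abs_mul, abs_of_pos Real.pi_pos, ← mul_assoc, div_mul_cancel₀ _ Real.pi_ne_zero] at this
    linarith
  have h2 := norm_sub_le (ee (x * Z)) 1
  rw [← e, norm_mul, norm_ee, norm_one] at h2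
  nlinarith [mul_le_mul_of_nonneg_left h1 (norm_nonneg (∑ l ∈ Ico (0 : ℤ) Z, ee (x * l)))]

lemma P_triv (a : ℝ) (Z : ℕ) :
    ∑ m ∈ Ioo (-Z : ℤ) Z, ‖∑ l ∈ Ico (0 : ℤ) Z, ee (a * m * l)‖ ≤ 2 * Z ^ 2 := by
  refine (sum_le_card_nsmul _ _ (Z : ℝ) fun m _ => (norm_sum_le _ _).trans_eq (by
    simp [norm_ee])).trans ?_
  have : (Ioo (-Z : ℤ) Z).card ≤ 2 * Z := by rw [Int.card_Ioo]; omega
  have : ((Ioo (-Z : ℤ) Z).card : ℝ) ≤ 2 * Z := by exact_mod_cast this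
  rw [nsmul_eq_mul]
  nlinarith [Z.cast_nonneg (α := ℝ)]

lemma P_good {a v : ℝ} {Z : ℕ} (v0 : 0 < v) (h1 : |a| * Z ≤ 1 / 2) (h2 : v ^ 2 ≤ |a| * Z ^ 2)
    (h3 : v ≤ Z) : (∑ m ∈ Ioo (-Z : ℤ) Z, ‖∑ l ∈ Ico (0 : ℤ) Z, ee (a * m * l)‖) * v ≤ 4 * Z ^ 2 := by
  have Z0 : (0 : ℝ) < Z := v0.trans_le h3
  have c1 : ((Ioo (-Z : ℤ) Z).card : ℝ) ≤ 2 * Z := by
    have : (Ioo (-Z : ℤ) Z).card ≤ 2 * Z := by rw [Int.card_Ioo]; omega
    exact_mod_cast this
  have c2 : ((Icc (-⌊Z / v⌋₊ : ℤ) ⌊Z / v⌋₊).card : ℝ) * v ≤ 3 * Z := by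
    have : (Icc (-⌊Z / v⌋₊ : ℤ) ⌊Z / v⌋₊).card = 2 * ⌊Z / v⌋₊ + 1 := by rw [Int.card_Icc]; omega
    have h4 := (le_div_iff₀ v0).1 (Nat.floor_le (show 0 ≤ Z / v by positivity))
    rw [this]
    push_cast
    linarith
  calc _ ≤ ∑ m ∈ Ioo (-Z : ℤ) Z, ((if m ∈ Icc (-⌊Z / v⌋₊ : ℤ) ⌊Z / v⌋₊ then Z * v else 0) + Z / 2) := by
        rw [sum_mul]
        refine sum_le_sum fun m hm => ?_
        split_ifs with h
        · refine le_add_of_le_of_nonneg (mul_le_mul_of_nonneg_right ((norm_sum_le _ _).trans_eq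
            (by simp [norm_ee])) v0.le) (by positivity)
        · have a1 : |(m : ℝ)| ≤ Z := by
            rw [← Int.cast_abs, ← Int.cast_natCast, Int.cast_le, abs_le]
            exact ⟨(mem_Ioo.1 hm).1.le, (mem_Ioo.1 hm).2.le⟩
          have a2 : (Z : ℝ) ≤ |(m : ℝ)| * v := by
            rw [mem_Icc, ← abs_le, not_le, Int.lt_iff_add_one_le, ← Int.cast_le (R := ℝ)] at h
            push_cast at h
            exact (div_le_iff₀ v0).1 ((Nat.lt_floor_add_one _).le.trans h)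
          have a3 := geom_le (x := a * m) (by
            rw [abs_mul]; exact (mul_le_mul_of_nonneg_left a1 (abs_nonneg _)).trans h1) Z
          rw [abs_mul] at a3
          have a0 := norm_nonneg (∑ l ∈ Ico (0 : ℤ) Z, ee (a * m * l))
          generalize ‖∑ l ∈ Ico (0 : ℤ) Z, ee (a * m * l)‖ = G at *
          have a4 : v ≤ |a| * |(m : ℝ)| * Z := le_of_mul_le_mul_right (by
            nlinarith [mul_le_mul_of_nonneg_left a2 (mul_nonneg (abs_nonneg a) Z0.le)]) v0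
          nlinarith [mul_le_mul_of_nonneg_left a4 a0, mul_le_mul_of_nonneg_right a3 Z0.le]
    _ ≤ _ := by
        rw [sum_add_distrib, sum_ite_mem, sum_const, sum_const, nsmul_eq_mul, nsmul_eq_mul]
        have c3 : ((Ioo (-Z : ℤ) Z ∩ Icc (-⌊Z / v⌋₊ : ℤ) ⌊Z / v⌋₊).card : ℝ) ≤ _ :=
          Nat.cast_le.2 (card_le_card inter_subset_right)
        nlinarith [mul_le_mul_of_nonneg_right c3 (mul_pos Z0 v0).le,
          mul_le_mul_of_nonneg_right c2 Z0.le, mul_le_mul_of_nonneg_right c1 Z0.le]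

end Pool.Agent.Lib.VK
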