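import Mathlib

/-! Shifting a zeta sum by products. -/

namespace Pool.Agent.Lib.VK

open Finset Complex Real

lemma shift_norm (t : ℝ) {n : ℕ} (hn : 0 < n) : ‖(n : ℂ) ^ (-((t : ℂ) * I))‖ = 1 := by
  rw [norm_natCast_cpow_of_pos hn]
  simp

lemma shift_nat (t : ℝ) {N M : ℕ} (hM : N ≤ M) (h : ℕ) :
    ‖∑ n ∈ Ioc N M, (n : ℂ) ^ (-((t : ℂ) * I)) -
      ∑ n ∈ Ioc N M, ((n + h : ℕ) : ℂ) ^ (-((t : ℂ) * I))‖ ≤ 2 * h := by
  set f : ℕ → ℂ := fun n => (n : ℂ) ^ (-((t : ℂ) * I))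
  have b : ∀ a : ℕ, ‖∑ n ∈ Ioc a (a + h), f n‖ ≤ h := fun a =>
    (norm_sum_le_of_le _ fun n hn => (shift_norm t (by have := (mem_Ioc.1 hn).1; omega)).le).trans
      (by simp)
  have e : ∑ n ∈ Ioc N M, f (n + h) = ∑ n ∈ Ioc (N + h) (M + h), f n := by
    rw [← map_add_right_Ioc, sum_map]
    rfl
  have e1 := sum_Ioc_consecutive f hM (Nat.le_add_right M h)
  have e2 := sum_Ioc_consecutive f (Nat.le_add_right N h) (Nat.add_le_add_right hM h)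
  change ‖∑ n ∈ Ioc N M, f n - ∑ n ∈ Ioc N M, f (n + h)‖ ≤ _
  rw [e, show ∑ n ∈ Ioc N M, f n - ∑ n ∈ Ioc (N + h) (M + h), f n =
    ∑ n ∈ Ioc N (N + h), f n - ∑ n ∈ Ioc M (M + h), f n by linear_combination e1 - e2]
  exact (norm_sub_le _ _).trans (by linarith [b N, b M])

lemma shift_taylor (k : ℕ) (t : ℝ) {n h : ℕ} (hn : 0 < n) {z : ℝ} (hz : (h : ℝ) / n ≤ z)
    (z2 : z ≤ 1 / 2) : ‖((n + h : ℕ) : ℂ) ^ (-((t : ℂ) * I)) - (n : ℂ) ^ (-((t : ℂ) * I)) *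
      cexp (I * (t * ∑ j ∈ range k, (-((h : ℝ) / n)) ^ (j + 1) / (j + 1) : ℝ))‖ ≤
      2 * |t| * z ^ (k + 1) := by
  have n0 : (0 : ℝ) < n := by exact_mod_cast hn
  have u0 : 0 ≤ (h : ℝ) / n := by positivity
  set u := (h : ℝ) / n with hu
  set P := ∑ j ∈ range k, (-u) ^ (j + 1) / ((j : ℝ) + 1)
  have l := Real.abs_log_sub_add_sum_range_le (x := -u) (by rw [abs_neg, abs_of_nonneg u0]; linarith) k
  rw [abs_neg, abs_of_nonneg u0, sub_neg_eq_add] at l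
  have e : ((n + h : ℕ) : ℂ) ^ (-((t : ℂ) * I)) = (n : ℂ) ^ (-((t : ℂ) * I)) * cexp (I * (t * P : ℝ)) *
      cexp (I * (-(t * (P + Real.log (1 + u))) : ℝ)) := by
    have : Real.log ((n + h : ℕ) : ℝ) = Real.log n + Real.log (1 + u) := by
      rw [← Real.log_mul n0.ne' (by linarith), hu]
      congr 1
      push_cast
      field_simp
    rw [cpow_def_of_ne_zero (by exact_mod_cast (by omega : n + h ≠ 0)),
      cpow_def_of_ne_zero (by exact_mod_cast hn.ne'), ← natCast_log, ← natCast_log, this,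
      ← Complex.exp_add, ← Complex.exp_add]
    congr 1
    simp only [ofReal_add, ofReal_neg, ofReal_mul]
    ring
  rw [e, ← mul_sub_one, norm_mul, norm_mul, shift_norm t hn, norm_exp_I_mul_ofReal, one_mul, one_mul]
  refine Real.norm_exp_I_mul_ofReal_sub_one_le.trans ?_
  rw [norm_neg, norm_mul, Real.norm_eq_abs, Real.norm_eq_abs, mul_comm 2, mul_assoc]
  refine mul_le_mul_of_nonneg_left (l.trans ?_) (abs_nonneg t)
  rw [div_le_iff₀ (by linarith)]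
  have : u ^ (k + 1) ≤ z ^ (k + 1) := by gcongr
  nlinarith [pow_nonneg (u0.trans hz) (k + 1)]

lemma shiftT (k X N M : ℕ) (t B : ℝ) (hX : 1 ≤ X) (hN : 2 * X ^ 2 ≤ N) (hM : N ≤ M)
    (hM2 : M ≤ 2 * N) (B0 : 0 ≤ B)
    (hW : ∀ n ∈ Ioc N M, ‖∑ x ∈ Ico (0 : ℤ) X, ∑ y ∈ Ico (0 : ℤ) X, cexp (2 * π * I *
      ((∑ j : Fin k, ((-1) ^ (j.1 + 1) * t / (2 * π * (j.1 + 1) * (n : ℝ) ^ (j.1 + 1))) *
        (x : ℝ) ^ (j.1 + 1) * (y : ℝ) ^ (j.1 + 1) : ℝ) : ℂ))‖ ≤ X ^ 2 * B) :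
    ‖∑ n ∈ Ioc N M, (n : ℂ) ^ (-((t : ℂ) * I))‖ ≤
      N * B + 2 * X ^ 2 + N * (2 * |t| * ((X : ℝ) ^ 2 / N) ^ (k + 1)) := by
  have X0 : (0 : ℝ) < (X : ℝ) ^ 2 := by positivity
  have hN' : 2 * (X : ℝ) ^ 2 ≤ N := by exact_mod_cast hN
  have N0 : (0 : ℝ) < N := by linarith
  set E : ℕ → ℤ → ℤ → ℂ := fun n x y => cexp (2 * π * I *
      ((∑ j : Fin k, ((-1) ^ (j.1 + 1) * t / (2 * π * (j.1 + 1) * (n : ℝ) ^ (j.1 + 1))) *
        (x : ℝ) ^ (j.1 + 1) * (y : ℝ) ^ (j.1 + 1) : ℝ) : ℂ)) with hE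
  set f : ℕ → ℂ := fun n => (n : ℂ) ^ (-((t : ℂ) * I))
  set D := 2 * |t| * ((X : ℝ) ^ 2 / N) ^ (k + 1)
  have D0 : 0 ≤ D := by positivity
  have cd : (#(Ioc N M) : ℝ) ≤ N := by
    rw [Nat.card_Ioc]
    exact_mod_cast (by omega : M - N ≤ N)
  have one : ∀ x ∈ Ico (0 : ℤ) X, ∀ y ∈ Ico (0 : ℤ) X,
      ‖∑ n ∈ Ioc N M, f n - ∑ n ∈ Ioc N M, f n * E n x y‖ ≤ 2 * X ^ 2 + N * D := by
    intro x hx y hy
    obtain ⟨x0, x1⟩ := mem_Ico.1 hx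
    obtain ⟨y0, y1⟩ := mem_Ico.1 hy
    lift x to ℕ using x0
    lift y to ℕ using y0
    have h1 : ((x * y : ℕ) : ℝ) ≤ (X : ℝ) ^ 2 := by
      have a : (x : ℝ) ≤ X := by exact_mod_cast x1.le
      have b : (y : ℝ) ≤ X := by exact_mod_cast y1.le
      rw [sq, Nat.cast_mul]
      gcongr
    refine (norm_sub_le_norm_sub_add_norm_sub _ (∑ n ∈ Ioc N M, f (n + x * y)) _).trans
      (add_le_add ((shift_nat t hM _).trans (by linarith)) ?_)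
    rw [← sum_sub_distrib]
    refine (norm_sum_le_of_le _ (n := fun _ => D) fun n hn => ?_).trans (by
      rw [sum_const, nsmul_eq_mul]; gcongr)
    have n1 : (N : ℝ) ≤ n := by exact_mod_cast (mem_Ioc.1 hn).1.le
    have n0 : (0 : ℝ) < n := N0.trans_le n1
    refine le_trans (le_of_eq ?_) (shift_taylor k t (n := n) (h := x * y) (by exact_mod_cast n0)
      (z := (X : ℝ) ^ 2 / N) (by gcongr) (by rw [div_le_iff₀ N0]; linarith))
    congr 3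
    rw [hE]
    beta_reduce
    rw [show 2 * (π : ℂ) * I = I * (2 * π : ℝ) by push_cast; ring, mul_assoc I, ← ofReal_mul,
      mul_sum, mul_sum, ← Fin.sum_univ_eq_sum_range]
    congr 3
    refine sum_congr rfl fun j _ => ?_
    push_cast
    rw [neg_pow (_ / _), div_pow, mul_pow]
    field_simp
  have e : ((X : ℝ) ^ 2 : ℝ) * ∑ n ∈ Ioc N M, f n = ∑ n ∈ Ioc N M, f n *
      (∑ x ∈ Ico (0 : ℤ) X, ∑ y ∈ Ico (0 : ℤ) X, E n x y) + ∑ x ∈ Ico (0 : ℤ) X, ∑ y ∈ Ico (0 : ℤ) X,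
      (∑ n ∈ Ioc N M, f n - ∑ n ∈ Ioc N M, f n * E n x y) := by
    simp only [sum_sub_distrib, mul_sum _ _ (f _)]
    rw [sum_comm (s := Ioc N M)]
    simp only [sum_comm (s := Ioc N M)]
    simp [sq, mul_assoc]
  refine le_of_mul_le_mul_left ?_ X0
  rw [← abs_of_pos X0, ← Real.norm_eq_abs, ← norm_real, ← norm_mul, e, norm_real,
    Real.norm_of_nonneg X0.le]
  refine (norm_add_le_of_le (norm_sum_le_of_le _ (n := fun _ => X ^ 2 * B) fun n hn => ?_)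
    (norm_sum_le_of_le _ fun x hx => norm_sum_le_of_le _ fun y hy => one x hx y hy)).trans ?_
  · rw [norm_mul, shift_norm t (by have := (mem_Ioc.1 hn).1; omega), one_mul]
    exact hW n hn
  · simp only [sum_const, nsmul_eq_mul, Int.card_Ico, sub_zero, Int.toNat_natCast]
    nlinarith [mul_le_mul_of_nonneg_right cd (mul_nonneg X0.le B0)]

end Pool.Agent.Lib.VK
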