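import Pool.Agent.Lib.VK.V4
import Pool.Agent.Lib.VK.V5a

/-! Vinogradov's bound for the sums `∑ n ^ (-i t)`. -/

namespace Pool.Agent.Lib.VK

open Finset Complex
open Fintype (piFinset mem_piFinset)
open scoped Real

variable {k : ℕ}

lemma W_bd (k2 : 2 ≤ k) (α : Fin k → ℝ) {X : ℕ} (X1 : 1 ≤ X) {s : ℕ} (hs : k ^ 2 + 72 * k ^ 3 * k = s)
    (i : Fin k) {w B : ℝ} (w2 : 2 ≤ w) (B0 : 0 ≤ B) (h1 : |α i| * (s * X ^ (i.1 + 1)) ≤ 1 / 2)
    (h2 : (w ^ 2) ^ 2 ≤ |α i| * (s * X ^ (i.1 + 1)) ^ 2) (h3 : w ^ 2 ≤ s * X ^ (i.1 + 1))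
    (hB : ((4 * k) ^ (4 * (72 * k ^ 3) * s) * (X : ℝ) ^ (1 / 72 : ℝ)) ^ 2 * (2 * s ^ 2) ^ k ≤
      w * B ^ (2 * s ^ 2)) :
    ‖∑ x ∈ Ico (0 : ℤ) X, ∑ y ∈ Ico (0 : ℤ) X, EE α (vv k x) (vv k y)‖ ≤ X ^ 2 * B := by
  have hv := vmvt k2 X1
  rw [hs] at hv
  obtain ⟨n, rfl⟩ : ∃ n, s = n + 1 := ⟨s - 1, by have : 0 < k ^ 2 := by positivity
                                                 omega⟩
  have e : ∀ y ∈ tup (n + 1) (Ico (0 : ℤ) X), ∀ j : Fin k,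
      0 ≤ ps k y j ∧ ps k y j < ((n + 1) * X ^ (j.1 + 1) : ℕ) := fun y hy j => by
    have := fun a => mem_Ico.1 (mem_piFinset.1 hy a)
    unfold ps Pw
    refine ⟨sum_nonneg fun a _ => pow_nonneg (this a).1 _, (sum_lt_sum_of_nonempty univ_nonempty
      fun a _ => pow_lt_pow_left₀ (this a).2 (this a).1 (Nat.succ_ne_zero _)).trans_eq ?_⟩
    simp
  have h4 := bil α (Ico (0 : ℤ) X) n (fun j => Ico 0 ((n + 1) * X ^ (j.1 + 1) : ℕ))
    (fun j => Ioo (-((n + 1) * X ^ (j.1 + 1) : ℕ)) ((n + 1) * X ^ (j.1 + 1) : ℕ))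
    (fun y hy => mem_piFinset.2 fun j => mem_Ico.2 (e y hy j)) fun z hz => mem_piFinset.2 fun j => by
      have a := e _ (mem_product.1 hz).1 j
      have b := e _ (mem_product.1 hz).2 j
      rw [mem_Ioo, Pi.sub_apply]
      constructor <;> linarith [a.1, a.2, b.1, b.2]
  have h5 : (∏ j : Fin k, ∑ m ∈ Ioo (-((n + 1) * X ^ (j.1 + 1) : ℕ) : ℤ) ((n + 1) * X ^ (j.1 + 1) : ℕ),
      ‖∑ l ∈ Ico (0 : ℤ) ((n + 1) * X ^ (j.1 + 1) : ℕ), ee (α j * m * l)‖) * w ≤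
      (2 * ((n + 1 : ℕ) : ℝ) ^ 2) ^ k * ((X : ℝ) ^ ∑ j : Fin k, (j.1 + 1)) ^ 2 := by
    rw [← Fintype.prod_ite_eq' i fun _ => w, ← prod_mul_distrib, ← prod_pow_eq_pow_sum, ← prod_pow,
      ← Fin.prod_const, ← prod_mul_distrib]
    refine prod_le_prod (fun j _ => mul_nonneg (sum_nonneg fun _ _ => norm_nonneg _)
      (by split_ifs <;> linarith)) fun j _ => ?_
    have a := P_triv (α j) ((n + 1) * X ^ (j.1 + 1))
    split_ifs with h
    · subst h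
      have b := P_good (a := α j) (v := w ^ 2) (Z := (n + 1) * X ^ (j.1 + 1)) (by positivity)
        (by exact_mod_cast h1) (by exact_mod_cast h2) (by exact_mod_cast h3)
      have c : (0 : ℝ) ≤ _ := sum_nonneg fun (m : ℤ) (_ : m ∈ Ioo (-((n + 1) * X ^ (j.1 + 1) : ℕ) : ℤ)
        ((n + 1) * X ^ (j.1 + 1) : ℕ)) => norm_nonneg
          (∑ l ∈ Ico (0 : ℤ) ((n + 1) * X ^ (j.1 + 1) : ℕ), ee (α j * m * l))
      rw [Nat.cast_mul (α := ℝ), Nat.cast_pow, mul_pow] at b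
      nlinarith [mul_le_mul_of_nonneg_left w2 (mul_nonneg c (zero_le_two.trans w2))]
    · rw [Nat.cast_mul (α := ℝ), Nat.cast_pow, mul_pow] at a
      linarith
  rw [Int.card_Ico, sub_zero, Int.toNat_natCast] at h4
  refine le_of_pow_le_pow_left₀ (n := 2 * (n + 1) ^ 2) (by positivity) (by positivity)
    (le_of_mul_le_mul_right ?_ (zero_lt_two.trans_le w2))
  refine (mul_le_mul_of_nonneg_right h4 (by linarith)).trans ?_
  rw [mul_assoc]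
  refine (mul_le_mul_of_nonneg_left h5 (by positivity)).trans ?_
  calc _ = (X : ℝ) ^ (4 * (n + 1) * n) * (2 * ((n + 1 : ℕ) : ℝ) ^ 2) ^ k *
        (JV k (n + 1) (Ico 0 X) * X ^ ∑ j : Fin k, (j.1 + 1)) ^ 2 := by ring
    _ ≤ (X : ℝ) ^ (4 * (n + 1) * n) * (2 * ((n + 1 : ℕ) : ℝ) ^ 2) ^ k * _ ^ 2 :=
      mul_le_mul_of_nonneg_left (pow_le_pow_left₀ (by positivity) hv 2) (by positivity)
    _ = (X : ℝ) ^ (4 * (n + 1) ^ 2) * (((4 * k) ^ (4 * (72 * k ^ 3) * (n + 1)) *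
        (X : ℝ) ^ (1 / 72 : ℝ)) ^ 2 * (2 * ((n + 1 : ℕ) : ℝ) ^ 2) ^ k) := by ring
    _ ≤ _ := (mul_le_mul_of_nonneg_left hB (by positivity)).trans_eq (by ring)

lemma alpha_bd {w t n X s : ℝ} (w1 : 16 ≤ w) (s1 : 1 ≤ s) (sw : s ≤ w) (X1 : w ^ 8 / 2 ≤ X)
    (X2 : X ≤ w ^ 8) (n1 : w ^ 20 ≤ n) (n2 : n ≤ 2 * w ^ 20) {i : ℕ} (t1 : w ^ (5 * (i + 1) + 5) ≤ |t|)
    (t2 : |t| ≤ (w ^ 10) ^ (i + 1)) :
    |(-1) ^ (i + 1) * t / (2 * π * (i + 1) * n ^ (i + 1))| * (s * X ^ (i + 1)) ≤ 1 / 2 ∧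
    (w ^ 2) ^ 2 ≤ |(-1) ^ (i + 1) * t / (2 * π * (i + 1) * n ^ (i + 1))| * (s * X ^ (i + 1)) ^ 2 ∧
    w ^ 2 ≤ s * X ^ (i + 1) := by
  have w0 : 0 < w := by linarith
  have n0 : 0 < n := lt_of_lt_of_le (by positivity) n1
  have X3 : w ^ 2 ≤ X := le_trans (by
    have : 2 ≤ w ^ 6 := le_trans (by linarith) (le_self_pow₀ (by linarith) (by norm_num))
    nlinarith [pow_pos w0 2]) X1
  have X0 : 1 ≤ X := le_trans (by nlinarith) X3
  have p3 := Real.pi_gt_three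
  have p4 := Real.pi_le_four
  rw [abs_div, abs_mul, abs_pow, abs_neg, abs_one, one_pow, one_mul,
    abs_of_pos (show 0 < 2 * π * (i + 1) * n ^ (i + 1) by positivity), div_mul_eq_mul_div,
    div_mul_eq_mul_div, div_le_iff₀ (by positivity), le_div_iff₀ (by positivity)]
  refine ⟨?_, ?_, ?_⟩
  · calc _ ≤ (w ^ 10) ^ (i + 1) * (w ^ (i + 1) * (w ^ 8) ^ (i + 1)) := by
          gcongr
          exact sw.trans (le_self_pow₀ (by linarith) (by omega))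
      _ = 1 * 1 * (w ^ 19) ^ (i + 1) := by ring
      _ ≤ π * (i + 1) * n ^ (i + 1) := by
          gcongr
          · linarith
          · linarith [i.cast_nonneg (α := ℝ)]
          · exact (pow_le_pow_right₀ (by linarith) (by norm_num)).trans n1
      _ = _ := by ring
  · have : (i + 1 : ℝ) ≤ 2 ^ (i + 1) := by exact_mod_cast Nat.lt_two_pow_self.le
    calc _ ≤ (w ^ 2) ^ 2 * (w * 2 ^ (i + 1) * (2 * w ^ 20) ^ (i + 1)) := by gcongr; linarith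
      _ = w ^ 5 * (4 * w ^ 20) ^ (i + 1) := by
          rw [show 4 * w ^ 20 = 2 * (2 * w ^ 20) by ring, mul_pow 2 (2 * _)]; ring
      _ ≤ w ^ 5 * (w ^ 5 * (w ^ 8 / 2) ^ 2) ^ (i + 1) := by
          refine mul_le_mul_of_nonneg_left (pow_le_pow_left₀ (by positivity) ?_ _) (by positivity)
          nlinarith [pow_pos w0 20]
      _ = w ^ (5 * (i + 1) + 5) * (1 * (w ^ 8 / 2) ^ (i + 1)) ^ 2 := by
          generalize w ^ 8 / 2 = u
          ring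
      _ ≤ _ := by gcongr
  · exact X3.trans ((le_self_pow₀ X0 (by omega)).trans (le_mul_of_one_le_left (by positivity) s1))

/-- Vinogradov's estimate, uniform in the size of `t`. -/
theorem expsum : ∃ A : ℕ, ∀ l : ℕ, 2 ≤ l → ∀ (N M : ℕ) (t : ℝ), (l : ℝ) ^ A ≤ Real.log N → N ≤ M →
    M ≤ 2 * N → (N : ℝ) ^ (3 / 4 : ℝ) ≤ |t| → |t| ≤ (N : ℝ) ^ l →
      ‖∑ n ∈ Ioc N M, (n : ℂ) ^ (-((t : ℂ) * I))‖ ≤ (N : ℝ) ^ (1 - 1 / (l : ℝ) ^ A) := by
  refine ⟨60, fun l l2 N M t hL hM hM2 t1 t2 => ?_⟩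
  have l1 : (2 : ℝ) ≤ l := by exact_mod_cast l2
  obtain ⟨k, hk⟩ : ∃ k, k = 5 * l := ⟨_, rfl⟩
  have k1 : (10 : ℝ) ≤ k := by exact_mod_cast (show 10 ≤ k by omega)
  have hA : 10 ^ 8 * (k : ℝ) ^ 9 ≤ (l : ℝ) ^ 60 := by
    have := mul_le_mul_of_nonneg_right (pow_le_pow_left₀ zero_le_two l1 51) (pow_nonneg l.cast_nonneg 9)
    rw [hk, Nat.cast_mul, mul_pow, show (l : ℝ) ^ 60 = l ^ 51 * l ^ 9 by ring]
    refine le_trans ?_ this
    rw [← mul_assoc]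
    gcongr
    norm_num
  generalize (l : ℝ) ^ 60 = A at *
  obtain ⟨s, hs⟩ : ∃ s, k ^ 2 + 72 * k ^ 3 * k = s := ⟨_, rfl⟩
  have k4 : (k : ℝ) ^ 2 ≤ k ^ 4 := pow_le_pow_right₀ (by linarith) (by norm_num)
  have k8 : (k : ℝ) ^ 8 ≤ k ^ 9 := pow_le_pow_right₀ (by linarith) (by norm_num)
  have k9 : (k : ℝ) ^ 4 ≤ k ^ 9 := pow_le_pow_right₀ (by linarith) (by norm_num)
  have k0 : (1 : ℝ) ≤ k ^ 2 := one_le_pow₀ (by linarith)
  have s0 : (s : ℝ) = k ^ 2 + 72 * k ^ 4 := by rw [← hs]; push_cast; ring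
  have s1 : (1 : ℝ) ≤ s := by linarith
  have s2 : (s : ℝ) ≤ 73 * k ^ 4 := by linarith
  have s3 : (s : ℝ) ^ 2 ≤ 5329 * k ^ 8 := (pow_le_pow_left₀ (by linarith) s2 2).trans_eq (by ring)
  have N0 : (0 : ℝ) < N := by
    rcases N.eq_zero_or_pos with rfl | h
    · simp only [Nat.cast_zero, Real.log_zero] at hL; linarith
    · exact_mod_cast h
  obtain ⟨L, hN⟩ : ∃ L, (N : ℝ) = Real.exp L := ⟨_, (Real.exp_log N0).symm⟩
  rw [hN, Real.log_exp] at hL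
  obtain ⟨w, hw⟩ : ∃ w, w = Real.exp (L / 20) := ⟨_, rfl⟩
  have wp : ∀ m : ℕ, w ^ m = Real.exp (m * (L / 20)) := fun m => by rw [hw, Real.exp_nat_mul]
  have wN : (N : ℝ) = w ^ 20 := by rw [wp, hN]; congr 1; push_cast; ring
  have sw : 73 * (k : ℝ) ^ 4 ≤ w := by linarith [Real.add_one_le_exp (L / 20)]
  have w1 : 16 ≤ w := by linarith
  have w0 : 0 < w := by linarith
  have t3 : w ^ 15 ≤ |t| := by
    rw [hN, ← Real.exp_mul] at t1
    rwa [wp, show ((15 : ℕ) : ℝ) * (L / 20) = L * (3 / 4) by push_cast; ring]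
  have t4 : |t| ≤ (w ^ 10) ^ (2 * l) := by rwa [pow_mul, ← pow_mul w, ← wN]
  have ex : ∃ j, |t| ≤ (w ^ 10) ^ j := ⟨_, t4⟩
  have j1 := Nat.find_spec ex
  have j2 := Nat.find_min' ex t4
  have j3 := fun m => Nat.find_min ex (m := m)
  generalize Nat.find ex = j at *
  have j4 : 1 < j := (pow_lt_pow_iff_right₀ (one_lt_pow₀ (by linarith) (by norm_num))).1
    (lt_of_lt_of_le (((pow_one _).trans_lt (pow_lt_pow_right₀ (by linarith) (by norm_num))).trans_le t3) j1)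
  obtain ⟨i, rfl⟩ : ∃ i, j = i + 1 := ⟨j - 1, by omega⟩
  have t5 : w ^ (5 * (i + 1) + 5) ≤ |t| := by
    rcases (show i = 1 ∨ 2 ≤ i by omega) with rfl | h
    · exact t3
    · refine le_trans ?_ (not_le.1 (j3 i (by omega))).le
      rw [← pow_mul]
      exact pow_le_pow_right₀ (by linarith) (by omega)
  have w8 : 2 ≤ w ^ 8 := le_trans (by linarith) (le_self_pow₀ (by linarith) (by norm_num))
  have X2 := Nat.floor_le (show 0 ≤ w ^ 8 by linarith)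
  have X1 : w ^ 8 / 2 ≤ ⌊w ^ 8⌋₊ := by linarith [Nat.lt_floor_add_one (w ^ 8)]
  generalize ⌊w ^ 8⌋₊ = X at *
  have X0 : 1 ≤ X := by exact_mod_cast (show (1 : ℝ) ≤ X by linarith)
  have X3 : (X : ℝ) ^ 2 * w ^ 4 ≤ N := by
    rw [wN]; exact (mul_le_mul_of_nonneg_right (pow_le_pow_left₀ X.cast_nonneg X2 2)
      (by positivity)).trans_eq (by ring)
  have w4 : 2 ≤ w ^ 4 := le_trans (by linarith) (le_self_pow₀ (by linarith) (by norm_num))
  have d0 : (0 : ℝ) < s ^ 2 := by positivity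
  refine (shiftT k X N M t (Real.exp (-(L / (80 * s ^ 2)))) X0 (by
    exact_mod_cast (show 2 * (X : ℝ) ^ 2 ≤ N by nlinarith [sq_nonneg (X : ℝ)])) hM hM2
    (Real.exp_nonneg _) fun n hn => ?_).trans ?_
  · have n1 : (N : ℝ) ≤ n := by exact_mod_cast (mem_Ioc.1 hn).1.le
    have n2 : (n : ℝ) ≤ 2 * N := by exact_mod_cast (mem_Ioc.1 hn).2.trans hM2
    obtain ⟨a1, a2, a3⟩ := alpha_bd w1 s1 (s2.trans sw) X1 X2 (wN ▸ n1) (wN ▸ n2) t5 j1
    have := W_bd (k := k) (by omega) (fun j => (-1) ^ (j.1 + 1) * t / (2 * π * (j.1 + 1) * n ^ (j.1 + 1)))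
      X0 hs ⟨i, by omega⟩ (B := Real.exp (-(L / (80 * s ^ 2)))) (by linarith) (Real.exp_nonneg _)
      a1 a2 a3 ?_
    · simpa only [EE, ee, vv, Int.cast_pow] using this
    have b1 : (X : ℝ) ^ (1 / 72 : ℝ) ≤ Real.exp (L / 180) := by
      refine (Real.rpow_le_rpow X.cast_nonneg X2 (by norm_num)).trans_eq ?_
      rw [wp, ← Real.exp_mul]; congr 1; push_cast; ring
    calc _ ≤ (Real.exp (4 * k) ^ (4 * (72 * k ^ 3) * s) * Real.exp (L / 180)) ^ 2 *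
          Real.exp (2 * s ^ 2) ^ k := by
          gcongr
          · linarith [Real.add_one_le_exp (4 * k : ℝ)]
          · linarith [Real.add_one_le_exp (2 * s ^ 2 : ℝ)]
      _ ≤ _ := by
          simp only [hw, ← Real.exp_nat_mul, ← Real.exp_add, Real.exp_le_exp]
          push_cast
          rw [show 2 * (s : ℝ) ^ 2 * -(L / (80 * s ^ 2)) = -(L / 40) by field_simp; ring]
          nlinarith [mul_le_mul_of_nonneg_left s2 (pow_nonneg k.cast_nonneg 4 : (0 : ℝ) ≤ _),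
            mul_le_mul_of_nonneg_left s3 (k.cast_nonneg : (0 : ℝ) ≤ _)]
  · have c1 : (X : ℝ) ^ 2 / N ≤ (w ^ 4)⁻¹ := by
      rw [div_le_iff₀ N0, ← div_eq_inv_mul, le_div_iff₀ (by positivity)]; exact X3
    have c2 : |t| * ((X : ℝ) ^ 2 / N) ^ (k + 1) ≤ (w ^ 4)⁻¹ :=
      (mul_le_mul t4 (pow_le_pow_left₀ (by positivity) c1 _) (by positivity) (by positivity)).trans_eq
        (by
          rw [hk, pow_succ (w ^ 4)⁻¹, inv_pow, ← mul_assoc, show (w ^ 10) ^ (2 * l) = (w ^ 4) ^ (5 * l) by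
            ring, mul_inv_cancel₀ (by positivity), one_mul])
    have c3 : (w ^ 4)⁻¹ ≤ Real.exp (-(L / (80 * s ^ 2))) := by
      rw [wp, ← Real.exp_neg, Real.exp_le_exp, neg_le_neg_iff, div_le_iff₀ (by positivity)]
      push_cast
      nlinarith [mul_le_mul_of_nonneg_left (one_le_pow₀ s1 : 1 ≤ (s : ℝ) ^ 2) (show 0 ≤ L by linarith)]
    have c4 : 5 * Real.exp (-(L / (80 * s ^ 2))) ≤ Real.exp (-(L / A)) := by
      have e1 : L / A ≤ L / (160 * s ^ 2) := div_le_div_of_nonneg_left (by linarith) (by positivity)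
        (by linarith)
      have e2 : 4 ≤ L / (160 * s ^ 2) := by rw [le_div_iff₀ (by positivity)]; linarith
      refine (mul_le_mul_of_nonneg_right (show 5 ≤ Real.exp (L / (160 * s ^ 2)) by
        linarith [Real.add_one_le_exp (L / (160 * s ^ 2))]) (Real.exp_nonneg _)).trans ?_
      rw [← Real.exp_add, Real.exp_le_exp,
        show L / (80 * s ^ 2) = 2 * (L / (160 * s ^ 2)) by field_simp; ring]
      linarith
    have c5 := (div_le_iff₀ N0).1 (c1.trans c3)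
    have c6 : (N : ℝ) ^ (1 - 1 / A) = N * Real.exp (-(L / A)) := by
      rw [hN, ← Real.exp_mul, ← Real.exp_add]; congr 1; ring
    rw [c6]
    nlinarith [mul_le_mul_of_nonneg_left (c2.trans c3) N0.le, mul_le_mul_of_nonneg_left c4 N0.le]

end Pool.Agent.Lib.VK
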