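import Pool.Agent.Lib.VK.V5

/-! Vinogradov's bound for the sums `∑ f n * n ^ (-i t)` with a periodic `f`. -/

namespace Pool.Agent.Lib.VK

open Finset Complex
open scoped Real

lemma coreP {l : ℕ} (l2 : 2 ≤ l) {N t : ℝ} (N0 : 0 < N) (hL : (l : ℝ) ^ 60 ≤ Real.log N)
    (t1 : N ^ (3 / 4 : ℝ) ≤ |t|) (t2 : |t| ≤ N ^ l) : ∃ (k X : ℕ) (B : ℝ), 1 ≤ X ∧ 0 ≤ B ∧
      2 * (X : ℝ) ^ 2 ≤ N ∧ (∀ n : ℝ, N ≤ n → n ≤ 2 * N → ‖∑ x ∈ Ico (0 : ℤ) X, ∑ y ∈ Ico (0 : ℤ) X,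
        EE (fun j : Fin k => (-1) ^ (j.1 + 1) * t / (2 * π * (j.1 + 1) * n ^ (j.1 + 1)))
          (vv k x) (vv k y)‖ ≤ X ^ 2 * B) ∧
      B + 2 * (X ^ 2 / N) + 2 * |t| * ((X : ℝ) ^ 2 / N) ^ (k + 1) ≤ N ^ (-(1 / (l : ℝ) ^ 60)) := by
  have l1 : (2 : ℝ) ≤ l := by exact_mod_cast l2
  obtain ⟨k, hk⟩ : ∃ k, k = 5 * l := ⟨_, rfl⟩
  have k1 : (10 : ℝ) ≤ k := by exact_mod_cast (show 10 ≤ k by omega)
  have hA : 10 ^ 8 * (k : ℝ) ^ 9 ≤ (l : ℝ) ^ 60 := by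
    have := mul_le_mul_of_nonneg_right (pow_le_pow_left₀ zero_le_two l1 51) (pow_nonneg l.cast_nonneg 9)
    rw [hk, Nat.cast_mul, mul_pow, show (l : ℝ) ^ 60 = l ^ 51 * l ^ 9 by ring]
    refine le_trans ?_ this
    rw [← mul_assoc]
    gcongr
    norm_num
  generalize (l : ℝ) ^ 60 = A at *
  obtain ⟨s, hs⟩ : ∃ s, k ^ 2 + 72 * k ^ 3 * k = s := ⟨_, rfl⟩
  have k4 : (k : ℝ) ^ 2 ≤ k ^ 4 := pow_le_pow_right₀ (by linarith) (by norm_num)
  have k8 : (k : ℝ) ^ 8 ≤ k ^ 9 := pow_le_pow_right₀ (by linarith) (by norm_num)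
  have k9 : (k : ℝ) ^ 4 ≤ k ^ 9 := pow_le_pow_right₀ (by linarith) (by norm_num)
  have k0 : (1 : ℝ) ≤ k ^ 2 := one_le_pow₀ (by linarith)
  have s0 : (s : ℝ) = k ^ 2 + 72 * k ^ 4 := by rw [← hs]; push_cast; ring
  have s1 : (1 : ℝ) ≤ s := by linarith
  have s2 : (s : ℝ) ≤ 73 * k ^ 4 := by linarith
  have s3 : (s : ℝ) ^ 2 ≤ 5329 * k ^ 8 := (pow_le_pow_left₀ (by linarith) s2 2).trans_eq (by ring)
  obtain ⟨L, hN⟩ : ∃ L, (N : ℝ) = Real.exp L := ⟨_, (Real.exp_log N0).symm⟩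
  rw [hN, Real.log_exp] at hL
  obtain ⟨w, hw⟩ : ∃ w, w = Real.exp (L / 20) := ⟨_, rfl⟩
  have wp : ∀ m : ℕ, w ^ m = Real.exp (m * (L / 20)) := fun m => by rw [hw, Real.exp_nat_mul]
  have wN : (N : ℝ) = w ^ 20 := by rw [wp, hN]; congr 1; push_cast; ring
  have sw : 73 * (k : ℝ) ^ 4 ≤ w := by linarith [Real.add_one_le_exp (L / 20)]
  have w1 : 16 ≤ w := by linarith
  have w0 : 0 < w := by linarith
  have t3 : w ^ 15 ≤ |t| := by
    rw [hN, ← Real.exp_mul] at t1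
    rwa [wp, show ((15 : ℕ) : ℝ) * (L / 20) = L * (3 / 4) by push_cast; ring]
  have t4 : |t| ≤ (w ^ 10) ^ (2 * l) := by rwa [pow_mul, ← pow_mul w, ← wN]
  have ex : ∃ j, |t| ≤ (w ^ 10) ^ j := ⟨_, t4⟩
  have j1 := Nat.find_spec ex
  have j2 := Nat.find_min' ex t4
  have j3 := fun m => Nat.find_min ex (m := m)
  generalize Nat.find ex = j at *
  have j4 : 1 < j := (pow_lt_pow_iff_right₀ (one_lt_pow₀ (by linarith) (by norm_num))).1
    (lt_of_lt_of_le (((pow_one _).trans_lt (pow_lt_pow_right₀ (by linarith) (by norm_num))).trans_le t3) j1)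
  obtain ⟨i, rfl⟩ : ∃ i, j = i + 1 := ⟨j - 1, by omega⟩
  have t5 : w ^ (5 * (i + 1) + 5) ≤ |t| := by
    rcases (show i = 1 ∨ 2 ≤ i by omega) with rfl | h
    · exact t3
    · refine le_trans ?_ (not_le.1 (j3 i (by omega))).le
      rw [← pow_mul]
      exact pow_le_pow_right₀ (by linarith) (by omega)
  have w8 : 2 ≤ w ^ 8 := le_trans (by linarith) (le_self_pow₀ (by linarith) (by norm_num))
  have X2 := Nat.floor_le (show 0 ≤ w ^ 8 by linarith)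
  have X1 : w ^ 8 / 2 ≤ ⌊w ^ 8⌋₊ := by linarith [Nat.lt_floor_add_one (w ^ 8)]
  generalize ⌊w ^ 8⌋₊ = X at *
  have X0 : 1 ≤ X := by exact_mod_cast (show (1 : ℝ) ≤ X by linarith)
  have X3 : (X : ℝ) ^ 2 * w ^ 4 ≤ N := by
    rw [wN]; exact (mul_le_mul_of_nonneg_right (pow_le_pow_left₀ X.cast_nonneg X2 2)
      (by positivity)).trans_eq (by ring)
  have w4 : 2 ≤ w ^ 4 := le_trans (by linarith) (le_self_pow₀ (by linarith) (by norm_num))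
  have d0 : (0 : ℝ) < s ^ 2 := by positivity
  refine ⟨k, X, Real.exp (-(L / (80 * s ^ 2))), X0, Real.exp_nonneg _,
    by nlinarith [sq_nonneg (X : ℝ)], fun n n1 n2 => ?_, ?_⟩
  · obtain ⟨a1, a2, a3⟩ := alpha_bd w1 s1 (s2.trans sw) X1 X2 (wN ▸ n1) (wN ▸ n2) t5 j1
    refine W_bd (k := k) (by omega) (fun j => (-1) ^ (j.1 + 1) * t / (2 * π * (j.1 + 1) * n ^ (j.1 + 1)))
      X0 hs ⟨i, by omega⟩ (B := Real.exp (-(L / (80 * s ^ 2)))) (by linarith) (Real.exp_nonneg _)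
      a1 a2 a3 ?_
    have b1 : (X : ℝ) ^ (1 / 72 : ℝ) ≤ Real.exp (L / 180) := by
      refine (Real.rpow_le_rpow X.cast_nonneg X2 (by norm_num)).trans_eq ?_
      rw [wp, ← Real.exp_mul]; congr 1; push_cast; ring
    calc _ ≤ (Real.exp (4 * k) ^ (4 * (72 * k ^ 3) * s) * Real.exp (L / 180)) ^ 2 *
          Real.exp (2 * s ^ 2) ^ k := by
          gcongr
          · linarith [Real.add_one_le_exp (4 * k : ℝ)]
          · linarith [Real.add_one_le_exp (2 * s ^ 2 : ℝ)]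
      _ ≤ _ := by
          simp only [hw, ← Real.exp_nat_mul, ← Real.exp_add, Real.exp_le_exp]
          push_cast
          rw [show 2 * (s : ℝ) ^ 2 * -(L / (80 * s ^ 2)) = -(L / 40) by field_simp; ring]
          nlinarith [mul_le_mul_of_nonneg_left s2 (pow_nonneg k.cast_nonneg 4 : (0 : ℝ) ≤ _),
            mul_le_mul_of_nonneg_left s3 (k.cast_nonneg : (0 : ℝ) ≤ _)]
  · have c1 : (X : ℝ) ^ 2 / N ≤ (w ^ 4)⁻¹ := by
      rw [div_le_iff₀ N0, ← div_eq_inv_mul, le_div_iff₀ (by positivity)]; exact X3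
    have c2 : |t| * ((X : ℝ) ^ 2 / N) ^ (k + 1) ≤ (w ^ 4)⁻¹ :=
      (mul_le_mul t4 (pow_le_pow_left₀ (by positivity) c1 _) (by positivity) (by positivity)).trans_eq
        (by
          rw [hk, pow_succ (w ^ 4)⁻¹, inv_pow, ← mul_assoc, show (w ^ 10) ^ (2 * l) = (w ^ 4) ^ (5 * l) by
            ring, mul_inv_cancel₀ (by positivity), one_mul])
    have c3 : (w ^ 4)⁻¹ ≤ Real.exp (-(L / (80 * s ^ 2))) := by
      rw [wp, ← Real.exp_neg, Real.exp_le_exp, neg_le_neg_iff, div_le_iff₀ (by positivity)]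
      push_cast
      nlinarith [mul_le_mul_of_nonneg_left (one_le_pow₀ s1 : 1 ≤ (s : ℝ) ^ 2) (show 0 ≤ L by linarith)]
    have c4 : 5 * Real.exp (-(L / (80 * s ^ 2))) ≤ Real.exp (-(L / A)) := by
      have e1 : L / A ≤ L / (160 * s ^ 2) := div_le_div_of_nonneg_left (by linarith) (by positivity)
        (by linarith)
      have e2 : 4 ≤ L / (160 * s ^ 2) := by rw [le_div_iff₀ (by positivity)]; linarith
      refine (mul_le_mul_of_nonneg_right (show 5 ≤ Real.exp (L / (160 * s ^ 2)) by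
        linarith [Real.add_one_le_exp (L / (160 * s ^ 2))]) (Real.exp_nonneg _)).trans ?_
      rw [← Real.exp_add, Real.exp_le_exp,
        show L / (80 * s ^ 2) = 2 * (L / (160 * s ^ 2)) by field_simp; ring]
      linarith
    have c6 : N ^ (-(1 / A)) = Real.exp (-(L / A)) := by
      rw [hN, ← Real.exp_mul]; congr 1; ring
    rw [c6]
    linarith

lemma shift_per {g : ℕ → ℂ} (hg : ∀ n, 0 < n → ‖g n‖ ≤ 1) {N M : ℕ} (hM : N ≤ M) (h : ℕ) :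
    ‖∑ n ∈ Ioc N M, g n - ∑ n ∈ Ioc N M, g (n + h)‖ ≤ 2 * h := by
  have b : ∀ a : ℕ, ‖∑ n ∈ Ioc a (a + h), g n‖ ≤ h := fun a =>
    (norm_sum_le_of_le _ fun n hn => hg n (by have := (mem_Ioc.1 hn).1; omega)).trans (by simp)
  have e : ∑ n ∈ Ioc N M, g (n + h) = ∑ n ∈ Ioc (N + h) (M + h), g n := by
    rw [← map_add_right_Ioc, sum_map]
    rfl
  have e1 := sum_Ioc_consecutive g hM (Nat.le_add_right M h)
  have e2 := sum_Ioc_consecutive g (Nat.le_add_right N h) (Nat.add_le_add_right hM h)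
  rw [e, show ∑ n ∈ Ioc N M, g n - ∑ n ∈ Ioc (N + h) (M + h), g n =
    ∑ n ∈ Ioc N (N + h), g n - ∑ n ∈ Ioc M (M + h), g n by linear_combination e1 - e2]
  exact (norm_sub_le _ _).trans (by linarith [b N, b M])

/-- Vinogradov's estimate with a `q`-periodic weight. -/
theorem expsumP {l q N M : ℕ} {t : ℝ} {f : ℕ → ℂ} (l2 : 2 ≤ l) (q0 : 0 < q) (f1 : ∀ n, ‖f n‖ ≤ 1)
    (fp : ∀ n, f (n + q) = f n) (hL : (l : ℝ) ^ 60 ≤ Real.log (N / q)) (hM : N ≤ M) (hM2 : M ≤ 2 * N)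
    (t1 : (N / q : ℝ) ^ (3 / 4 : ℝ) ≤ |t|) (t2 : |t| ≤ (N / q : ℝ) ^ l) :
    ‖∑ n ∈ Ioc N M, f n * (n : ℂ) ^ (-((t : ℂ) * I))‖ ≤ N * (N / q : ℝ) ^ (-(1 / (l : ℝ) ^ 60)) := by
  rcases N.eq_zero_or_pos with rfl | h
  · obtain rfl : M = 0 := by omega
    simp
  have N0 : (0 : ℝ) < N := by exact_mod_cast h
  have q1 : (0 : ℝ) < q := by exact_mod_cast q0
  obtain ⟨k, X, B, hX, B0, hN, hW, hB⟩ := coreP l2 (div_pos N0 q1) hL t1 t2
  refine le_trans ?_ (mul_le_mul_of_nonneg_left hB N0.le)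
  have X0 : (0 : ℝ) < (X : ℝ) ^ 2 := by positivity
  obtain ⟨E, hE⟩ : ∃ E : ℕ → ℤ → ℤ → ℂ, ∀ n x y, E n x y = EE (fun j : Fin k => (-1) ^ (j.1 + 1) * t /
    (2 * π * (j.1 + 1) * (n / q : ℝ) ^ (j.1 + 1))) (vv k x) (vv k y) := ⟨_, fun _ _ _ => rfl⟩
  obtain ⟨g, hg⟩ : ∃ g : ℕ → ℂ, ∀ n, g n = f n * (n : ℂ) ^ (-((t : ℂ) * I)) := ⟨_, fun _ => rfl⟩
  have g1 : ∀ n, 0 < n → ‖g n‖ ≤ 1 := fun n hn => by rw [hg, norm_mul, shift_norm t hn, mul_one]; exact f1 n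
  simp only [← hg]
  have z0 : 0 ≤ (X : ℝ) ^ 2 / (N / q) := by positivity
  have z1 : (X : ℝ) ^ 2 / (N / q) ≤ 1 / 2 := by rw [div_le_iff₀ (div_pos N0 q1)]; linarith
  have z2 : (q : ℝ) * X ^ 2 = X ^ 2 / (N / q) * N := by field_simp
  generalize (X : ℝ) ^ 2 / (N / q) = z at *
  have cd : ((Ioc N M).card : ℝ) ≤ N := by
    rw [Nat.card_Ioc]
    exact_mod_cast (by omega : M - N ≤ N)
  have one : ∀ x ∈ Ico (0 : ℤ) X, ∀ y ∈ Ico (0 : ℤ) X, ‖∑ n ∈ Ioc N M, g n - ∑ n ∈ Ioc N M, g n * E n x y‖ ≤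
      N * (2 * z + 2 * |t| * z ^ (k + 1)) := by
    intro x hx y hy
    obtain ⟨x0, x1⟩ := mem_Ico.1 hx
    obtain ⟨y0, y1⟩ := mem_Ico.1 hy
    lift x to ℕ using x0
    lift y to ℕ using y0
    have h1 : ((x * y * q : ℕ) : ℝ) ≤ z * N := by
      have a : (x : ℝ) ≤ X := by exact_mod_cast x1.le
      have b : (y : ℝ) ≤ X := by exact_mod_cast y1.le
      rw [← z2, sq, Nat.cast_mul, Nat.cast_mul, mul_comm]
      gcongr
    rw [mul_add]
    refine (norm_sub_le_norm_sub_add_norm_sub _ (∑ n ∈ Ioc N M, g (n + x * y * q)) _).trans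
      (add_le_add ((shift_per g1 hM _).trans (by linarith)) ?_)
    rw [← sum_sub_distrib]
    refine (norm_sum_le_of_le _ (n := fun _ => 2 * |t| * z ^ (k + 1)) fun n hn => ?_).trans (by
      rw [sum_const, nsmul_eq_mul]; gcongr)
    have n1 : (N : ℝ) ≤ n := by exact_mod_cast (mem_Ioc.1 hn).1.le
    have n0 : (0 : ℝ) < n := N0.trans_le n1
    have p : f (n + x * y * q) = f n := Function.Periodic.nat_mul fp (x * y) n
    rw [hg, hg, p, mul_assoc (f n), ← mul_sub, norm_mul]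
    refine (mul_le_of_le_one_left (norm_nonneg _) (f1 n)).trans (le_trans (le_of_eq ?_)
      (shift_taylor k t (n := n) (h := x * y * q) (by exact_mod_cast n0) (z := z) (by
        rw [div_le_iff₀ n0]; exact h1.trans (mul_le_mul_of_nonneg_left n1 z0)) z1))
    congr 3
    rw [hE, EE, ee, show 2 * (π : ℂ) * I = I * (2 * π : ℝ) by push_cast; ring, mul_assoc I,
      ← ofReal_mul, mul_sum, mul_sum, ← Fin.sum_univ_eq_sum_range]
    congr 3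
    refine sum_congr rfl fun j _ => ?_
    simp only [vv]
    push_cast
    rw [neg_pow (_ / _), div_pow, div_pow, mul_pow, mul_pow]
    field_simp
  have e : ((X : ℝ) ^ 2 : ℝ) * ∑ n ∈ Ioc N M, g n = ∑ n ∈ Ioc N M, g n *
      (∑ x ∈ Ico (0 : ℤ) X, ∑ y ∈ Ico (0 : ℤ) X, E n x y) + ∑ x ∈ Ico (0 : ℤ) X, ∑ y ∈ Ico (0 : ℤ) X,
      (∑ n ∈ Ioc N M, g n - ∑ n ∈ Ioc N M, g n * E n x y) := by
    simp only [sum_sub_distrib, mul_sum _ _ (g _)]
    rw [sum_comm (s := Ioc N M)]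
    simp only [sum_comm (s := Ioc N M)]
    simp [sq, mul_assoc]
  refine le_of_mul_le_mul_left ?_ X0
  rw [← abs_of_pos X0, ← Real.norm_eq_abs, ← norm_real, ← norm_mul, e, norm_real,
    Real.norm_of_nonneg X0.le]
  refine (norm_add_le_of_le (norm_sum_le_of_le _ (n := fun _ => X ^ 2 * B) fun n hn => ?_)
    (norm_sum_le_of_le _ fun x hx => norm_sum_le_of_le _ fun y hy => one x hx y hy)).trans ?_
  · have n1 : (N : ℝ) ≤ n := by exact_mod_cast (mem_Ioc.1 hn).1.le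
    have n2 : (n : ℝ) ≤ 2 * N := by exact_mod_cast (mem_Ioc.1 hn).2.trans hM2
    rw [norm_mul]
    refine (mul_le_of_le_one_left (norm_nonneg _) (g1 n (by have := (mem_Ioc.1 hn).1; omega))).trans ?_
    simp only [hE]
    exact hW _ (by gcongr) (by rw [← mul_div_assoc]; gcongr)
  · simp only [sum_const, nsmul_eq_mul, Int.card_Ico, sub_zero, Int.toNat_natCast]
    nlinarith [mul_le_mul_of_nonneg_right cd (mul_nonneg X0.le B0)]

end Pool.Agent.Lib.VK
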